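import Pool.Agent.J6H13.CP.Sel

/-! A configuration of positions contains the shifts of a block of consecutive primes, two of which lie in
different groups, with a prescribed number of primes between them. -/

set_option autoImplicit false

namespace Pool.Agent.J6H13.CP

open Finset Filter Topology

/-- the coloured theorem: at least `M + 1` of the `T` classes are hit, the forms of `U` being composite -/
def Pat (T M K : ℕ) : Prop :=
  ∀ H : Fin T → Fin K → ℤ × ℤ, Function.Injective (fun x : Fin T × Fin K => H x.1 x.2) →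
    (∀ g i, 0 < (H g i).1 ∧ IsCoprime (H g i).1 (H g i).2) →
    (∀ p : ℕ, p.Prime → p ≤ T * K → ∃ r : ℤ, ∀ g i, ¬ (p : ℤ) ∣ (H g i).1 * r + (H g i).2) →
    ∀ U : Finset (ℤ × ℤ), (∀ u ∈ U, 0 < u.1 ∧ IsCoprime u.1 u.2 ∧ ∀ g i, u ≠ H g i) →
    ∃ C : ℕ, ∀ᶠ N : ℕ in atTop, ∃ (S : Finset (Fin T)) (cc : Fin T → Fin K),
      M + 1 ≤ S.card ∧ (N : ℝ) / (Real.log N) ^ C ≤ (((Icc 2 N).filter (fun n : ℕ =>
        (∀ g ∈ S, ((H g (cc g)).1 * (n : ℤ) + (H g (cc g)).2).toNat.Prime) ∧
          ∀ u ∈ U, ¬ (u.1 * (n : ℤ) + u.2).toNat.Prime)).card : ℝ)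

/-- the pattern `{0, d, t_1, ..., t_k}` -/
def shifts {k : ℕ} (d : ℕ) (t : Fin k → ℤ) : Finset ℤ := insert 0 (insert (d : ℤ) (univ.image t))

/-- the integers `n + q h`, `h ∈ H`, are consecutive primes: they are the only primes between the first and the
last of them -/
def Consecutive (q n : ℕ) (H : Finset ℤ) : Prop :=
  ∀ y : ℤ, (∃ h ∈ H, (q : ℤ) * h ≤ y) → (∃ h ∈ H, y ≤ q * h) →
    (((n : ℤ) + y).toNat.Prime ↔ ∃ h ∈ H, y = q * h)

open Classical in
/-- the number of the `1 ≤ n ≤ x`, `n ≡ a (mod q)`, such that `n + q h`, `h ∈ {0, d, t_1, ..., t_k}`, are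
consecutive primes -/
noncomputable def blocks {k : ℕ} (q a d : ℕ) (t : Fin k → ℤ) (x : ℕ) : ℕ :=
  ((Icc 1 x).filter (fun n : ℕ => n ≡ a [MOD q] ∧ Consecutive q n (shifts d t))).card

lemma toNat_form (q n v : ℕ) : ((q : ℤ) * (n : ℤ) + (v : ℤ)).toNat = q * n + v := by
  have : (q : ℤ) * (n : ℤ) + (v : ℤ) = ((q * n + v : ℕ) : ℤ) := by push_cast; ring
  rw [this, Int.toNat_natCast]

theorem config_good {T M K k : ℕ} (hkM : 4 * k + 3 ≤ M) (gr : Fin T → Fin 4)
    (hgr : ∀ S : Finset (Fin T), M + 1 ≤ S.card → ∃ γ₀ ∈ S, ∃ γ₁ ∈ S, gr γ₀ < gr γ₁)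
    (hpat : Pat T M K) (q a : ℕ) (hq : 1 ≤ q) (ha : Nat.Coprime a q)
    (po : Fin T × Fin K → ℕ) (hinj : Function.Injective po)
    (hcross : ∀ z z' : Fin T × Fin K, gr z.1 < gr z'.1 → po z < po z')
    (hloc : ∀ p : ℕ, p.Prime → p ≤ T * K → ¬ p ∣ q → ∃ n : ℤ, ∀ z, ¬ (p : ℤ) ∣ n + q * po z)
    (col : Fin 4 → Fin 4 → Fin (k + 1)) :
    ∃ C : ℕ, ∀ᶠ x : ℕ in atTop, ∃ z : Fin (k + 2) → Fin T × Fin K, Function.Injective z ∧
      gr (z 0).1 < gr (z 1).1 ∧
      (univ.filter (fun i : Fin k => po (z 0) < po (z i.succ.succ) ∧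
        po (z i.succ.succ) < po (z 1))).card = (col (gr (z 0).1) (gr (z 1).1) : ℕ) ∧
      (x : ℝ) / Real.log x ^ C ≤ (blocks q a (po (z 1) - po (z 0))
        (fun i : Fin k => (po (z i.succ.succ) : ℤ) - po (z 0)) x : ℝ) := by
  classical
  have hqZ : (0 : ℤ) < q := by exact_mod_cast hq
  obtain ⟨Hf, hHf⟩ : ∃ Hf : Fin T → Fin K → ℤ × ℤ,
      Hf = fun g i => ((q : ℤ), ((a + q * po (g, i) : ℕ) : ℤ)) := ⟨_, rfl⟩
  obtain ⟨s, hs⟩ : ∃ s, s = ∑ z, q * po z := ⟨_, rfl⟩
  have hsle : ∀ z, q * po z ≤ s := fun z => by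
    rw [hs]
    exact single_le_sum (f := fun z => q * po z) (fun _ _ => Nat.zero_le _) (mem_univ z)
  obtain ⟨U, hU⟩ : ∃ U : Finset (ℤ × ℤ), U = ((range (s + 1)).filter
      (fun v => Nat.Coprime q (a + v) ∧ ∀ z, v ≠ q * po z)).image
        (fun v : ℕ => ((q : ℤ), ((a + v : ℕ) : ℤ))) := ⟨_, rfl⟩
  obtain ⟨C, hC⟩ := hpat Hf (by
    rintro ⟨g, i⟩ ⟨g', i'⟩ h
    have h1 : Hf g i = Hf g' i' := h
    rw [hHf] at h1
    have h2 : ((a + q * po (g, i) : ℕ) : ℤ) = ((a + q * po (g', i') : ℕ) : ℤ) := (Prod.mk.inj h1).2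
    have h3 : a + q * po (g, i) = a + q * po (g', i') := by exact_mod_cast h2
    exact hinj (Nat.eq_of_mul_eq_mul_left (by omega) (Nat.add_left_cancel h3))) (fun g i => by
    rw [hHf]
    refine ⟨hqZ, ?_⟩
    show IsCoprime (q : ℤ) ((a + q * po (g, i) : ℕ) : ℤ)
    rw [Nat.isCoprime_iff_coprime]
    rw [Nat.coprime_add_mul_left_right]
    exact ha.symm) (fun p hp hpK => by
    rw [hHf]
    by_cases hpq : p ∣ q
    · refine ⟨0, fun g i hd => ?_⟩
      have h1 : (p : ℤ) ∣ ((a + q * po (g, i) : ℕ) : ℤ) := by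
        have h0 : (q : ℤ) * 0 + ((a + q * po (g, i) : ℕ) : ℤ) = ((a + q * po (g, i) : ℕ) : ℤ) := by ring
        rw [← h0]; exact hd
      have h2 : p ∣ a + q * po (g, i) := by exact_mod_cast h1
      have h3 : p ∣ a := (Nat.dvd_add_left (hpq.mul_right _)).1 h2
      exact hp.one_lt.ne' (Nat.dvd_one.1 (ha ▸ Nat.dvd_gcd h3 hpq))
    · obtain ⟨n, hn⟩ := hloc p hp hpK hpq
      have hcop : IsCoprime (p : ℤ) (q : ℤ) := by
        rw [Nat.isCoprime_iff_coprime]
        exact (Nat.Prime.coprime_iff_not_dvd hp).2 hpq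
      obtain ⟨u, v, huv⟩ := hcop
      refine ⟨v * (n - a), fun g i hd => hn (g, i) ?_⟩
      have h1 : n + (q : ℤ) * po (g, i) = ((q : ℤ) * (v * (n - a)) + ((a + q * po (g, i) : ℕ) : ℤ)) +
          (p : ℤ) * (u * (n - a)) := by
        push_cast
        linear_combination (a - n) * huv
      rw [h1]
      exact dvd_add hd (dvd_mul_right _ _)) U (fun u hu => by
    rw [hU] at hu
    obtain ⟨v, hv, rfl⟩ := mem_image.1 hu
    obtain ⟨-, hv1, hv2⟩ := mem_filter.1 hv
    refine ⟨hqZ, Nat.isCoprime_iff_coprime.2 hv1, fun g i h => ?_⟩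
    rw [hHf] at h
    have h2 : ((a + v : ℕ) : ℤ) = ((a + q * po (g, i) : ℕ) : ℤ) := (Prod.mk.inj h).2
    have h3 : a + v = a + q * po (g, i) := by exact_mod_cast h2
    exact hv2 (g, i) (Nat.add_left_cancel h3))
  -- scales
  have hN : Tendsto (fun x : ℕ => x / (2 * q)) atTop atTop :=
    Nat.tendsto_div_const_atTop (by omega)
  obtain ⟨B, hB⟩ : ∃ B : ℕ, B = (univ : Finset (Finset (Fin T × Fin K))).card := ⟨_, rfl⟩
  have hBpos : 0 < B := by rw [hB]; exact card_pos.2 ⟨∅, mem_univ _⟩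
  have hlog : ∀ᶠ x : ℕ in atTop, (4 * q * B : ℝ) ≤ Real.log x :=
    (Real.tendsto_log_atTop.comp tendsto_natCast_atTop_atTop).eventually_ge_atTop _
  refine ⟨C + 1, ?_⟩
  filter_upwards [hN.eventually hC, hlog, eventually_ge_atTop (2 * (a + s) + 12 * q)] with x hx1 hx2 hx3
  obtain ⟨N, hNdef⟩ : ∃ N, N = x / (2 * q) := ⟨_, rfl⟩
  rw [← hNdef] at hx1
  obtain ⟨S, cc, hS, hcount⟩ := hx1
  obtain ⟨W0, hW0⟩ : ∃ W0, W0 = (Icc 2 N).filter (fun n : ℕ =>
        (∀ g ∈ S, ((Hf g (cc g)).1 * (n : ℤ) + (Hf g (cc g)).2).toNat.Prime) ∧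
          ∀ u ∈ U, ¬ (u.1 * (n : ℤ) + u.2).toNat.Prime) := ⟨_, rfl⟩
  rw [← hW0] at hcount
  have hqR : (1 : ℝ) ≤ q := by exact_mod_cast hq
  have hBR : (1 : ℝ) ≤ B := by exact_mod_cast hBpos
  have hlx : 0 < Real.log x := by
    refine lt_of_lt_of_le ?_ hx2
    positivity
  have hNx : (x : ℝ) ≤ 4 * q * N := by
    have h1 : x < 2 * q * (x / (2 * q)) + 2 * q := by
      have := Nat.lt_mul_div_succ x (show 0 < 2 * q by omega)
      rw [Nat.mul_add, Nat.mul_one] at this
      exact this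
    rw [← hNdef] at h1
    have h2 : x ≤ 4 * q * N := by
      have h3 : 12 * q ≤ x := by omega
      have h4 : 1 ≤ N := by
        rw [hNdef, Nat.one_le_div_iff (by omega)]
        omega
      have h5 : 2 * q ≤ 2 * q * N := Nat.le_mul_of_pos_right _ h4
      have h6 : 4 * q * N = 2 * q * N + 2 * q * N := by ring
      omega
    exact_mod_cast h2
  have hN3 : 3 ≤ N := by
    rw [hNdef, Nat.le_div_iff_mul_le (by omega)]
    omega
  have hlN : 0 < Real.log N := Real.log_pos (by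
    have : (3 : ℝ) ≤ N := by exact_mod_cast hN3
    linarith)
  have hNlex : (N : ℝ) ≤ x := by
    have : N ≤ x := by rw [hNdef]; exact Nat.div_le_self _ _
    exact_mod_cast this
  have hlNx : Real.log N ≤ Real.log x := by
    refine Real.log_le_log ?_ hNlex
    have : (3 : ℝ) ≤ N := by exact_mod_cast hN3
    linarith
  obtain ⟨β, hβ⟩ : ∃ β : ℝ, β = (x : ℝ) / Real.log x ^ (C + 1) := ⟨_, rfl⟩
  have hx0 : (0 : ℝ) < x := by
    have : 0 < x := by omega
    exact_mod_cast this
  have hβ0 : 0 < β := by rw [hβ]; positivity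
  have hβW : (B : ℝ) * β ≤ W0.card := by
    refine le_trans ?_ hcount
    rw [hβ, le_div_iff₀ (by positivity)]
    have h1 : Real.log N ^ C ≤ Real.log x ^ C := pow_le_pow_left₀ hlN.le hlNx C
    calc (B : ℝ) * (x / Real.log x ^ (C + 1)) * Real.log N ^ C
        ≤ (B : ℝ) * (x / Real.log x ^ (C + 1)) * Real.log x ^ C :=
          mul_le_mul_of_nonneg_left h1 (by positivity)
      _ = B * x / Real.log x := by
          rw [pow_succ]; field_simp
      _ ≤ B * (4 * q * N) / (4 * q * B) := by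
          rw [div_le_div_iff₀ hlx (by positivity)]
          have h2 : (B : ℝ) * x ≤ B * (4 * q * N) := mul_le_mul_of_nonneg_left hNx (by positivity)
          exact mul_le_mul h2 hx2 (by positivity) (by positivity)
      _ = N := by field_simp
  -- the exact set of positions
  obtain ⟨Pf, hPf⟩ : ∃ Pf : ℕ → Finset (Fin T × Fin K),
      Pf = fun n => univ.filter (fun z => (q * n + (a + q * po z)).Prime) := ⟨_, rfl⟩
  obtain ⟨P, -, hPc⟩ := exists_le_card_fiber_of_nsmul_le_card_of_maps_to (s := W0)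
    (t := (univ : Finset (Finset (Fin T × Fin K)))) (f := Pf) (b := β) (fun _ _ => mem_univ _)
    ⟨∅, mem_univ _⟩ (by rw [nsmul_eq_mul, ← hB]; exact hβW)
  obtain ⟨V, hV⟩ : ∃ V, V = W0.filter (fun n => Pf n = P) := ⟨_, rfl⟩
  rw [← hV] at hPc
  have hVne : V.Nonempty := by
    rw [← card_pos]
    have : (0 : ℝ) < V.card := lt_of_lt_of_le hβ0 hPc
    exact_mod_cast this
  have hmemP : ∀ n ∈ V, ∀ z, z ∈ P ↔ (q * n + (a + q * po z)).Prime := by
    intro n hn z
    rw [hV] at hn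
    rw [← (mem_filter.1 hn).2, hPf]
    simp
  have hhit : ∀ g ∈ S, (g, cc g) ∈ P := by
    obtain ⟨n, hn⟩ := hVne
    intro g hg
    rw [hmemP n hn]
    rw [hV, hW0] at hn
    have h1 := (mem_filter.1 (mem_filter.1 hn).1).2.1 g hg
    rw [hHf] at h1
    have h2 := toNat_form q n (a + q * po (g, cc g))
    rw [← h2]
    exact h1
  obtain ⟨γ₀, hγ₀, γ₁, hγ₁, hγ⟩ := hgr S hS
  have hPcard : 4 * k + 4 ≤ P.card := by
    have h1 : S.card ≤ P.card := by
      apply card_le_card_of_injOn (fun g => (g, cc g))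
      · intro g hg
        exact mem_coe.2 (hhit g (mem_coe.1 hg))
      · intro g _ g' _ h
        exact congrArg Prod.fst h
    omega
  obtain ⟨z, hz1, hz2, hz3, hz4, hz5⟩ := select (k := k) P po hinj (fun z => gr z.1) hcross hPcard
    ⟨_, hhit _ hγ₀, _, hhit _ hγ₁, hγ⟩ col
  refine ⟨z, hz1, hz3, hz4, ?_⟩
  rw [← hβ]
  refine hPc.trans ?_
  rw [Nat.cast_le]
  unfold blocks
  -- the shifts
  have hlt' : po (z 0) < po (z 1) := hcross _ _ hz3
  have hshift : ∀ h : ℤ, h ∈ shifts (po (z 1) - po (z 0))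
      (fun i : Fin k => (po (z i.succ.succ) : ℤ) - po (z 0)) ↔
      ∃ l, h = (po (z l) : ℤ) - po (z 0) := by
    intro h
    unfold shifts
    rw [mem_insert, mem_insert, mem_image]
    constructor
    · rintro (rfl | rfl | ⟨i, -, rfl⟩)
      · exact ⟨0, by ring⟩
      · refine ⟨1, ?_⟩
        rw [Nat.cast_sub hlt'.le]
      · exact ⟨i.succ.succ, rfl⟩
    · rintro ⟨i, rfl⟩
      refine Fin.cases ?_ (fun i => ?_) i
      · left; ring
      · refine Fin.cases ?_ (fun i => ?_) i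
        · right; left
          rw [Nat.cast_sub hlt'.le]
          rfl
        · right; right
          exact ⟨i, mem_univ _, rfl⟩
  apply card_le_card_of_injOn (fun n : ℕ => q * n + (a + q * po (z 0)))
  · intro n hn
    have hnV := mem_coe.1 hn
    have hn' := hnV
    rw [hV, hW0] at hn'
    obtain ⟨hn1, hn2⟩ := mem_filter.1 (mem_filter.1 hn').1
    rw [mem_Icc] at hn1
    have hqn : q * n ≤ q * N := Nat.mul_le_mul_left _ hn1.2
    have hqN : 2 * (q * N) ≤ x := by
      rw [hNdef]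
      have := Nat.mul_div_le x (2 * q)
      rw [← mul_assoc]
      exact this
    have hz0 := hsle (z 0)
    refine mem_coe.2 (mem_filter.2 ⟨mem_Icc.2 ⟨?_, ?_⟩, ?_, ?_⟩)
    · show 1 ≤ q * n + (a + q * po (z 0))
      have : 1 ≤ q * n := Nat.mul_pos (by omega) (by omega)
      omega
    · show q * n + (a + q * po (z 0)) ≤ x
      omega
    · show q * n + (a + q * po (z 0)) ≡ a [MOD q]
      have e1 : q * n + (a + q * po (z 0)) = a + q * (n + po (z 0)) := by ring
      rw [e1]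
      unfold Nat.ModEq
      rw [Nat.add_mul_mod_self_left]
    · intro y hy1 hy2
      obtain ⟨h1, hh1, hy1⟩ := hy1
      obtain ⟨h2, hh2, hy2⟩ := hy2
      obtain ⟨l1, rfl⟩ := (hshift h1).1 hh1
      obtain ⟨l2, rfl⟩ := (hshift h2).1 hh2
      obtain ⟨w1, hw1⟩ : ∃ w1, w1 = z l1 := ⟨_, rfl⟩
      obtain ⟨w2, hw2⟩ : ∃ w2, w2 = z l2 := ⟨_, rfl⟩
      rw [← hw1] at hy1
      rw [← hw2] at hy2
      -- the value
      obtain ⟨v, hv⟩ : ∃ v : ℕ, (v : ℤ) = q * po (z 0) + y := by
        have h3 : (0 : ℤ) ≤ q * po (z 0) + y := by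
          have h4 : (q : ℤ) * ((po w1 : ℤ) - po (z 0)) = q * po w1 - q * po (z 0) := by ring
          have h5 : (0 : ℤ) ≤ q * po w1 := by positivity
          linarith
        exact ⟨(q * po (z 0) + y).toNat, Int.toNat_of_nonneg h3⟩
      have hvw1 : q * po w1 ≤ v := by
        have h4 : (q : ℤ) * ((po w1 : ℤ) - po (z 0)) = q * po w1 - q * po (z 0) := by ring
        have h5 : (q : ℤ) * po w1 ≤ v := by rw [hv]; linarith
        exact_mod_cast h5
      have hvw2 : v ≤ q * po w2 := by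
        have h4 : (q : ℤ) * ((po w2 : ℤ) - po (z 0)) = q * po w2 - q * po (z 0) := by ring
        have h5 : (v : ℤ) ≤ q * po w2 := by rw [hv]; linarith
        exact_mod_cast h5
      have hval : (((q * n + (a + q * po (z 0)) : ℕ) : ℤ) + y).toNat = q * n + (a + v) := by
        have h3 : ((q * n + (a + q * po (z 0)) : ℕ) : ℤ) + y = ((q * n + (a + v) : ℕ) : ℤ) := by
          push_cast
          rw [hv]
          ring
        rw [h3, Int.toNat_natCast]
      show (((q * n + (a + q * po (z 0)) : ℕ) : ℤ) + y).toNat.Prime ↔ _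
      rw [hval]
      constructor
      · intro hprime
        by_cases hcop : Nat.Coprime q (a + v)
        · by_cases hcfg : ∃ u, v = q * po u
          · obtain ⟨u, hu⟩ := hcfg
            have huP : u ∈ P := by
              rw [hmemP n hnV, ← hu]
              exact hprime
            obtain ⟨l, hl⟩ : ∃ l, z l = u := by
              refine hz5 u huP ⟨l1, ?_⟩ ⟨l2, ?_⟩
              · rw [hu] at hvw1
                rw [← hw1]
                exact Nat.le_of_mul_le_mul_left hvw1 (by omega)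
              · rw [hu] at hvw2
                rw [← hw2]
                exact Nat.le_of_mul_le_mul_left hvw2 (by omega)
            refine ⟨(po u : ℤ) - po (z 0), (hshift _).2 ⟨l, by rw [hl]⟩, ?_⟩
            have h3 : (v : ℤ) = q * po u := by rw [hu]; push_cast; ring
            rw [mul_sub]
            linarith
          · exfalso
            push Not at hcfg
            have hvs : v ≤ s := hvw2.trans (hsle w2)
            have hmem : ((q : ℤ), ((a + v : ℕ) : ℤ)) ∈ U := by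
              rw [hU]
              refine mem_image.2 ⟨v, mem_filter.2 ⟨mem_range.2 (by omega), hcop, hcfg⟩, rfl⟩
            have h3 := hn2.2 _ hmem
            apply h3
            show ((q : ℤ) * (n : ℤ) + ((a + v : ℕ) : ℤ)).toNat.Prime
            rw [toNat_form]
            exact hprime
        · exfalso
          -- a common factor
          have hg : Nat.gcd q (a + v) ∣ q * n + (a + v) :=
            dvd_add ((Nat.gcd_dvd_left _ _).mul_right _) (Nat.gcd_dvd_right _ _)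
          rcases (Nat.dvd_prime hprime).1 hg with h3 | h3
          · exact hcop h3
          · have h4 : Nat.gcd q (a + v) ≤ q := Nat.le_of_dvd (by omega) (Nat.gcd_dvd_left _ _)
            have h5 : 2 * q ≤ q * n := by
              rw [mul_comm]
              exact Nat.mul_le_mul_left _ hn1.1
            omega
      · rintro ⟨h3, hh3, hy3⟩
        obtain ⟨l, rfl⟩ := (hshift h3).1 hh3
        have h4 : v = q * po (z l) := by
          have h5 : (v : ℤ) = q * po (z l) := by rw [hv, hy3]; ring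
          exact_mod_cast h5
        rw [h4]
        exact (hmemP n hnV (z l)).1 (hz2 l)
  · intro n _ n' _ h
    have h1 : q * n + (a + q * po (z 0)) = q * n' + (a + q * po (z 0)) := h
    exact Nat.eq_of_mul_eq_mul_left (by omega) (Nat.add_right_cancel h1)

end Pool.Agent.J6H13.CP
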