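import Pool.Agent.J6H13.CP.Tools

/-! Extensions of pairs with an arbitrary property (after `Pool.Agent.N646.TT.Key2`, for arbitrary
positions instead of one position in each class). -/

set_option autoImplicit false

namespace Pool.Agent.J6H13.CP

open Finset Filter Topology
open Pool.Agent.N646.TT (PP emb)
open Pool.Agent.TH899.UG.TD (QQ quad)

open Classical in
/-- the vectors `t` in `[-H, H] ^ k` with different coordinates `≠ 0, d` and the property `Q d t` -/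
noncomputable def extQ (k : ℕ) (Q : ℕ → (Fin k → ℤ) → Prop) (H d : ℕ) : Finset (Fin k → ℤ) :=
  (Fintype.piFinset (fun _ : Fin k => Icc (-(H : ℤ)) H)).filter (fun t => Function.Injective t ∧
    (∀ i, t i ≠ 0 ∧ t i ≠ d) ∧ Q d t)

/-- the property of the tuple at the positions `z` -/
def QZ {m K k : ℕ} (M : ℕ) (r : Fin 4 → ℕ) (Q : ℕ → (Fin k → ℤ) → Prop)
    (z : Fin (k + 2) → Fin (4 * m) × Fin K) (F : Fin (4 * m) × Fin K → ℕ) : Prop :=
  Q (pos M r F (z 1) - pos M r F (z 0))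
    (fun i : Fin k => (pos M r F (z i.succ.succ) : ℤ) - pos M r F (z 0))

open Classical in
theorem key4 (m K T M k Hh : ℕ) (B : Fin 4 → Fin 4 → Finset ℕ) (r : Fin 4 → ℕ)
    (Q : ℕ → (Fin k → ℤ) → Prop) (n : ℝ) (hM : 1 ≤ M) (hB : ∀ g g', ∀ d ∈ B g g', 1 ≤ d ∧ d ≤ Hh)
    (zf : Fin (k + 2) → Fin (4 * m) × Fin K) (hzfi : Function.Injective zf)
    (hBe : ∀ d ∈ B (grp (zf 0).1) (grp (zf 1).1), ((extQ k Q Hh d).card : ℝ) ≤ n) (hn : 0 ≤ n)
    (h01' : grp (zf 0).1 < grp (zf 1).1) :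
    (((Fintype.piFinset (fun _ : Fin (4 * m) × Fin K => range T)).filter
      (fun H => Fam M B r H ∧ Function.Injective H ∧ QZ M r Q zf H)).card : ℝ) * (T : ℝ) ^ k ≤
      n * (T : ℝ) ^ (4 * m * K) := by
  set Y := (Fintype.piFinset (fun _ : Fin (4 * m) × Fin K => range T)).filter
      (fun H => Fam M B r H ∧ Function.Injective H ∧ QZ M r Q zf H) with hY
  have h2i : Function.Injective (fun i : Fin k => zf i.succ.succ) := by
    intro i j hij
    exact Fin.succ_injective _ (Fin.succ_injective _ (hzfi hij))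
  obtain ⟨Z, hZ⟩ : ∃ Z, Z = (univ : Finset (Fin k)).image (fun i => zf i.succ.succ) := ⟨_, rfl⟩
  have hZc : Z.card = k := by
    rw [hZ, card_image_of_injective _ h2i, card_univ, Fintype.card_fin]
  have hz0 : zf 0 ∉ Z := by
    rw [hZ, mem_image]
    rintro ⟨i, -, hi⟩
    exact (Fin.succ_ne_zero _) (hzfi hi)
  have hz1 : zf 1 ∉ Z := by
    rw [hZ, mem_image]
    rintro ⟨i, -, hi⟩
    have h2 : i.succ.succ = (0 : Fin (k + 1)).succ := hzfi hi
    exact (Fin.succ_ne_zero _) (Fin.succ_injective _ h2)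
  have hYs : Y ⊆ Fintype.piFinset (fun _ : Fin (4 * m) × Fin K => range T) := by
    intro H hH
    rw [hY] at hH
    exact (mem_filter.1 hH).1
  have hmain := rest Z T Y hYs n (by
    intro H₀ _ S hS1 hS2
    rcases S.eq_empty_or_nonempty with he | ⟨H₁, hH₁⟩
    · rw [he, card_empty, Nat.cast_zero]
      exact hn
    have hpos : ∀ H ∈ S,
        pos M r H (zf 0) = pos M r H₀ (zf 0) ∧ pos M r H (zf 1) = pos M r H₀ (zf 1) := by
      intro H hH
      have h1 := hS2 H hH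
      unfold pos
      rw [h1 _ hz0, h1 _ hz1]
      exact ⟨rfl, rfl⟩
    obtain ⟨d, hd⟩ : ∃ d, d = pos M r H₀ (zf 1) - pos M r H₀ (zf 0) := ⟨_, rfl⟩
    have hdB : d ∈ B (grp (zf 0).1) (grp (zf 1).1) := by
      have h1 := hS1 hH₁
      rw [hY] at h1
      obtain ⟨-, h2, -⟩ := mem_filter.1 h1
      have h3 := (h2 (zf 0) (zf 1) h01').2
      rw [(hpos H₁ hH₁).1, (hpos H₁ hH₁).2, ← hd] at h3
      exact h3
    refine le_trans ?_ (hBe d hdB)
    rw [Nat.cast_le]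
    apply card_le_card_of_injOn (fun H => fun i : Fin k =>
      (pos M r H (zf i.succ.succ) : ℤ) - pos M r H (zf 0))
    · intro H hH
      have hp := hpos H (mem_coe.1 hH)
      have h1 := hS1 (mem_coe.1 hH)
      rw [hY] at h1
      obtain ⟨h2, h3, h4, h5⟩ := mem_filter.1 h1
      have hpi := pos_inj hM h3 h4
      have hlt := (h3 (zf 0) (zf 1) h01').1
      have hdd : (d : ℤ) = (pos M r H (zf 1) : ℤ) - pos M r H (zf 0) := by
        rw [hd, ← hp.1, ← hp.2]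
        omega
      refine mem_coe.2 (mem_filter.2 ⟨Fintype.mem_piFinset.2 fun i => mem_Icc.2
        (pos_bd hB h3 (zf 0) (zf 1) (zf i.succ.succ) h01'), ?_, ?_, ?_⟩)
      · intro i j hij
        have h6 : (pos M r H (zf i.succ.succ) : ℤ) - pos M r H (zf 0) =
          (pos M r H (zf j.succ.succ) : ℤ) - pos M r H (zf 0) := hij
        have h7 : pos M r H (zf i.succ.succ) = pos M r H (zf j.succ.succ) := by omega
        exact h2i (hpi h7)
      · intro i
        refine ⟨fun h6 => ?_, fun h6 => ?_⟩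
        · have h7 : (pos M r H (zf i.succ.succ) : ℤ) - pos M r H (zf 0) = 0 := h6
          have h8 : pos M r H (zf i.succ.succ) = pos M r H (zf 0) := by omega
          exact (Fin.succ_ne_zero _) (hzfi (hpi h8))
        · have h7 : (pos M r H (zf i.succ.succ) : ℤ) - pos M r H (zf 0) = d := h6
          have h8 : pos M r H (zf i.succ.succ) = pos M r H (zf 1) := by omega
          have h9 : i.succ.succ = (0 : Fin (k + 1)).succ := hzfi (hpi h8)
          exact (Fin.succ_ne_zero _) (Fin.succ_injective _ h9)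
      · unfold QZ at h5
        rw [hp.1, hp.2, ← hd] at h5
        show Q d (fun i : Fin k => (pos M r H (zf i.succ.succ) : ℤ) - pos M r H (zf 0))
        rw [hp.1]
        exact h5
    · intro H hH H' hH' hHH
      have h2 := hS2 H (mem_coe.1 hH)
      have h2' := hS2 H' (mem_coe.1 hH')
      have hp := hpos H (mem_coe.1 hH)
      have hp' := hpos H' (mem_coe.1 hH')
      funext z
      by_cases hz : z ∈ Z
      · rw [hZ] at hz
        obtain ⟨i, -, hi⟩ := mem_image.1 hz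
        have h3 : (pos M r H (zf i.succ.succ) : ℤ) - pos M r H (zf 0) =
          (pos M r H' (zf i.succ.succ) : ℤ) - pos M r H' (zf 0) := congrFun hHH i
        rw [hp.1, hp'.1] at h3
        have h4 : pos M r H (zf i.succ.succ) = pos M r H' (zf i.succ.succ) := by omega
        unfold pos at h4
        rw [hi] at h4
        exact Nat.eq_of_mul_eq_mul_left hM (Nat.add_left_cancel h4)
      · rw [h2 z hz, h2' z hz])
  rw [hZc, Fintype.card_prod, Fintype.card_fin, Fintype.card_fin] at hmain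
  exact hmain

open Classical in
/-- a configuration without tuples with the property `Q` -/
theorem config4 (k m K : ℕ) (hm : 1 ≤ m) (hK : 1 ≤ K) (ε : ℝ) (hε : 0 < ε) : ∃ c : ℝ, 0 < c ∧ ∃ L : ℕ,
    ∀ H : ℕ, L ≤ H → ∀ Q : Fin (k + 1) → ℕ → (Fin k → ℤ) → Prop, ¬ (1 / 3 - ε) * (H : ℝ) ≤
      (((Icc 1 H).filter (fun d : ℕ => ∀ ρ, c * (H : ℝ) ^ k ≤ ((extQ k (Q ρ) H d).card : ℝ))).card : ℝ) →
    ∃ (c₃ : ℕ) (r : Fin 4 → ℕ) (F : Fin (4 * m) × Fin K → ℕ) (col : Fin 4 → Fin 4 → Fin (k + 1)),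
      (∀ g, r g < (4 * m * K).factorial) ∧
      (∀ z, F z < 5 * H / (4 * m * K).factorial + 1) ∧
      (∀ g, r g % 3 = 0 ∨ r g % 3 = c₃) ∧
      Function.Injective (pos (4 * m * K).factorial r F) ∧
      (∀ z z' : Fin (4 * m) × Fin K, grp z.1 < grp z'.1 →
        pos (4 * m * K).factorial r F z < pos (4 * m * K).factorial r F z') ∧
      ∀ zf : Fin (k + 2) → Fin (4 * m) × Fin K, Function.Injective zf →
        grp (zf 0).1 < grp (zf 1).1 →
          ¬ QZ (4 * m * K).factorial r (Q (col (grp (zf 0).1) (grp (zf 1).1))) zf F := by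
  obtain ⟨M, hM⟩ : ∃ M, M = (4 * m * K).factorial := ⟨_, rfl⟩
  rw [← hM]
  have hM0 : 1 ≤ M := by rw [hM]; exact Nat.factorial_pos _
  have hM0R : (1 : ℝ) ≤ M := by exact_mod_cast hM0
  obtain ⟨e, he⟩ : ∃ e, e = min ε 1 := ⟨_, rfl⟩
  have he0 : 0 < e := by rw [he]; positivity
  have he1 : e ≤ 1 := by rw [he]; exact min_le_right _ _
  have heε : e ≤ ε := by rw [he]; exact min_le_left _ _
  obtain ⟨ε₂, hε₂⟩ : ∃ ε₂ : ℝ, ε₂ = (e / 16) ^ 3 / 625 := ⟨_, rfl⟩
  have hε₂0 : 0 < ε₂ := by rw [hε₂]; positivity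
  obtain ⟨NC, hNC⟩ : ∃ NC : ℕ, NC = (univ : Finset (Fin 4 → Fin 4 → Fin (k + 1))).card := ⟨_, rfl⟩
  have hNC0 : 0 < NC := by rw [hNC]; exact card_pos.2 ⟨fun _ _ => 0, mem_univ _⟩
  have hNCR : (0 : ℝ) < NC := by exact_mod_cast hNC0
  obtain ⟨δ, hδ⟩ : ∃ δ : ℝ, δ = ε₂ / NC / 16 := ⟨_, rfl⟩
  have hδ0 : 0 < δ := by rw [hδ]; positivity
  obtain ⟨δ₁, hδ₁⟩ : ∃ δ₁ : ℝ, δ₁ = δ ^ ((m * K) ^ 4) := ⟨_, rfl⟩
  have hδ₁0 : 0 < δ₁ := by rw [hδ₁]; positivity
  obtain ⟨nn, hnn⟩ : ∃ nn : ℕ, nn = 4 * m * K := ⟨_, rfl⟩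
  obtain ⟨Nn, hNn⟩ : ∃ Nn : ℝ, Nn = (Fintype.card (Fin (k + 2) → Fin (4 * m) × Fin K) : ℝ) + 1 := ⟨_, rfl⟩
  have hNn0 : 0 < Nn := by rw [hNn]; positivity
  obtain ⟨c, hc⟩ : ∃ c : ℝ, c = δ₁ / (4 * Nn * (M : ℝ) ^ k) := ⟨_, rfl⟩
  have hc0 : 0 < c := by rw [hc]; positivity
  obtain ⟨L, hL⟩ := exists_nat_ge (16 / e + M + M * (4 * (nn : ℝ) ^ 2 / δ₁))
  refine ⟨c, hc0, L, fun H hH Q hcon => ?_⟩
  push Not at hcon
  obtain ⟨B, hBdef⟩ : ∃ B, B = (Icc 1 H).filter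
      (fun d : ℕ => ¬ ∀ ρ, c * (H : ℝ) ^ k ≤ ((extQ k (Q ρ) H d).card : ℝ)) := ⟨_, rfl⟩
  have hsum : ((Icc 1 H).filter
      (fun d : ℕ => ∀ ρ, c * (H : ℝ) ^ k ≤ ((extQ k (Q ρ) H d).card : ℝ))).card + B.card = H := by
    rw [hBdef, card_filter_add_card_filter_not, Nat.card_Icc, Nat.add_sub_cancel]
  have hBI : B ⊆ Icc 1 H := by rw [hBdef]; exact filter_subset _ _
  have hκ : ∀ d : ℕ, ∃ ρ : Fin (k + 1), d ∈ B → ((extQ k (Q ρ) H d).card : ℝ) < c * (H : ℝ) ^ k := by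
    intro d
    by_cases hd : d ∈ B
    · rw [hBdef] at hd
      have h1 := (mem_filter.1 hd).2
      push Not at h1
      obtain ⟨ρ, hρ⟩ := h1
      exact ⟨ρ, fun _ => hρ⟩
    · exact ⟨0, fun h => absurd h hd⟩
  choose κ hκ' using hκ
  have hsumr : ((((Icc 1 H).filter
      (fun d : ℕ => ∀ ρ, c * (H : ℝ) ^ k ≤ ((extQ k (Q ρ) H d).card : ℝ))).card : ℕ) : ℝ) +
      (B.card : ℝ) = H := by exact_mod_cast hsum
  have hH0 : (0 : ℝ) ≤ H := Nat.cast_nonneg _
  have hBr : (2 / 3 + e) * (H : ℝ) ≤ B.card := by nlinarith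
  have h16e : 0 < 16 / e := by positivity
  have hM4 : 0 ≤ M * (4 * (nn : ℝ) ^ 2 / δ₁) := by positivity
  have hHbig : 16 / e + M + M * (4 * (nn : ℝ) ^ 2 / δ₁) ≤ (H : ℝ) := hL.trans (by exact_mod_cast hH)
  have hHM : M ≤ H := by
    have : (M : ℝ) ≤ H := by linarith
    exact_mod_cast this
  have heH : 16 ≤ e * H := by
    have h1 : 16 / e ≤ (H : ℝ) := by linarith
    rw [div_le_iff₀ he0] at h1
    linarith
  obtain ⟨R, hR⟩ : ∃ R, R = ⌊e * H / 8⌋₊ := ⟨_, rfl⟩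
  have hRu : (R : ℝ) ≤ e * H / 8 := by rw [hR]; exact Nat.floor_le (by positivity)
  have hRl : e * H / 16 ≤ (R : ℝ) := by
    have h1 : e * H / 8 < (R : ℝ) + 1 := by rw [hR]; exact Nat.lt_floor_add_one _
    linarith
  have hR1 : 1 ≤ R := by
    have h1 : (1 : ℝ) ≤ R := by linarith
    exact_mod_cast h1
  obtain ⟨c₃, hc₃, hq'⟩ := quad H R R hR1 B hBI (by
    have h1 : (2 * H + 9 * R + 3 * R + 20 : ℝ) ≤ 3 * B.card := by nlinarith
    exact_mod_cast h1)
  have hcount : ε₂ * (5 * (H : ℝ)) ^ 4 ≤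
      (((Fintype.piFinset (fun _ : Fin 4 => range (5 * H))).filter (fun f => PP B c₃ f)).card : ℝ) := by
    have h2 : (H : ℝ) * (QQ H B c₃).card ≤
      (((Fintype.piFinset (fun _ : Fin 4 => range (5 * H))).filter (fun f => PP B c₃ f)).card : ℝ) := by
      exact_mod_cast emb H c₃ B
    refine le_trans ?_ h2
    have h3 : (R : ℝ) * (R * R) ≤ (QQ H B c₃).card := by exact_mod_cast hq'
    have h4 : (e * H / 16) ^ 3 ≤ (R : ℝ) ^ 3 := by gcongr
    have h5 : (R : ℝ) ^ 3 = R * (R * R) := by ring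
    have h6 : ε₂ * (5 * (H : ℝ)) ^ 4 = H * (e * H / 16) ^ 3 := by rw [hε₂]; ring
    rw [h6]
    exact mul_le_mul_of_nonneg_left (by linarith) hH0
  -- the most frequent colours of the differences
  obtain ⟨col, -, hcol⟩ := exists_le_card_fiber_of_nsmul_le_card_of_maps_to
    (s := (Fintype.piFinset (fun _ : Fin 4 => range (5 * H))).filter (fun f => PP B c₃ f))
    (t := (univ : Finset (Fin 4 → Fin 4 → Fin (k + 1)))) (f := fun f g g' => κ (f g' - f g))
    (b := ε₂ / NC * (5 * (H : ℝ)) ^ 4) (fun _ _ => mem_univ _) ⟨fun _ _ => 0, mem_univ _⟩ (by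
      rw [nsmul_eq_mul, ← hNC]
      refine le_trans (le_of_eq ?_) hcount
      field_simp)
  obtain ⟨BC, hBC⟩ : ∃ BC : Fin 4 → Fin 4 → Finset ℕ, BC = fun g g' => B.filter (fun d => κ d = col g g') :=
    ⟨_, rfl⟩
  have hcount2 : ε₂ / NC * (5 * (H : ℝ)) ^ 4 ≤
      (((Fintype.piFinset (fun _ : Fin 4 => range (5 * H))).filter (fun f => PPC BC c₃ f)).card : ℝ) := by
    refine hcol.trans ?_
    rw [Nat.cast_le]
    apply card_le_card
    intro f hf
    obtain ⟨hf1, hf2⟩ := mem_filter.1 hf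
    obtain ⟨hf3, hf4⟩ := mem_filter.1 hf1
    refine mem_filter.2 ⟨hf3, fun g g' hg => ?_, hf4.2⟩
    refine ⟨(hf4.1 g g' hg).1, ?_⟩
    rw [hBC]
    exact mem_filter.2 ⟨(hf4.1 g g' hg).2, congrFun (congrFun hf2 g) g'⟩
  obtain ⟨T, hT⟩ : ∃ T, T = 5 * H / M + 1 := ⟨_, rfl⟩
  have hT1 : 1 ≤ T := by
    rw [hT]
    exact Nat.le_add_left 1 _
  have hMT : 5 * H ≤ M * T := by
    rw [hT]
    exact (Nat.lt_mul_div_succ _ (by omega)).le
  have hMT2 : M * T ≤ 5 * H + M := by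
    rw [hT, mul_add, mul_one]
    have := Nat.mul_div_le (5 * H) M
    omega
  obtain ⟨r, hr1, hr2⟩ := residues H M T hM0 hMT (PPC BC c₃)
  have hdens : δ * (T : ℝ) ^ 4 ≤ (((Fintype.piFinset (fun _ : Fin 4 => range T)).filter
      (fun t => PPC BC c₃ (fun g => r g + M * t g))).card : ℝ) := by
    have h1 : ε₂ / NC * (5 * (H : ℝ)) ^ 4 ≤ (M : ℝ) ^ 4 *
        (((Fintype.piFinset (fun _ : Fin 4 => range T)).filter
          (fun t => PPC BC c₃ (fun g => r g + M * t g))).card : ℝ) := by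
      refine hcount2.trans ?_
      exact_mod_cast hr2
    have h2 : (M : ℝ) * T ≤ 2 * (5 * (H : ℝ)) := by
      have : M * T ≤ 2 * (5 * H) := by omega
      exact_mod_cast this
    have h3 : ((M : ℝ) * T) ^ 4 ≤ (2 * (5 * (H : ℝ))) ^ 4 := pow_le_pow_left₀ (by positivity) h2 4
    have h4 : (M : ℝ) ^ 4 * (δ * (T : ℝ) ^ 4) ≤ ε₂ / NC * (5 * (H : ℝ)) ^ 4 := by
      calc (M : ℝ) ^ 4 * (δ * (T : ℝ) ^ 4) = δ * ((M : ℝ) * T) ^ 4 := by ring
        _ ≤ δ * (2 * (5 * (H : ℝ))) ^ 4 := mul_le_mul_of_nonneg_left h3 hδ0.le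
        _ = _ := by rw [hδ]; ring
    exact le_of_mul_le_mul_left (h4.trans h1) (by positivity)
  have hBCI : ∀ g g', ∀ d ∈ BC g g', 1 ≤ d ∧ d ≤ H := by
    intro g g' d hd
    rw [hBC] at hd
    exact mem_Icc.1 (hBI (mem_filter.1 hd).1)
  have hbox := fam_many m K T M c₃ (Nat.mul_pos (by omega) hK) BC r δ hδ0.le hdens
  rw [← hδ₁, ← hnn] at hbox
  have hTR : (1 : ℝ) ≤ T := by exact_mod_cast hT1
  obtain ⟨P, hP⟩ : ∃ P, P = Fintype.piFinset (fun _ : Fin (4 * m) × Fin K => range T) := ⟨_, rfl⟩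
  rw [← hP] at hbox
  obtain ⟨X2, hX2⟩ : ∃ X2, X2 = P.filter (fun F => ¬ Function.Injective F) := ⟨_, rfl⟩
  have hcardι : Fintype.card (Fin (4 * m) × Fin K) = nn := by
    rw [Fintype.card_prod, Fintype.card_fin, Fintype.card_fin, hnn]
  have hX2c : (X2.card : ℝ) ≤ δ₁ / 4 * (T : ℝ) ^ nn := by
    have h1 := ninj (ι := Fin (4 * m) × Fin K) T
    rw [← hP, ← hX2, hcardι] at h1
    have h2 : 4 * (nn : ℝ) ^ 2 / δ₁ ≤ T := by
      have h3 : (M : ℝ) * (4 * (nn : ℝ) ^ 2 / δ₁) ≤ M * T := by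
        have h4 : (H : ℝ) ≤ M * T := by
          have : H ≤ M * T := by omega
          exact_mod_cast this
        linarith
      exact le_of_mul_le_mul_left h3 (by linarith)
    rw [div_le_iff₀ hδ₁0] at h2
    have h3 : (X2.card : ℝ) * T ≤ (δ₁ / 4 * (T : ℝ) ^ nn) * T := by
      refine h1.trans ?_
      have h4 : (0 : ℝ) ≤ (T : ℝ) ^ nn := by positivity
      have h5 : (nn : ℝ) ^ 2 ≤ δ₁ / 4 * T := by linarith
      calc (nn : ℝ) ^ 2 * (T : ℝ) ^ nn ≤ δ₁ / 4 * T * (T : ℝ) ^ nn := mul_le_mul_of_nonneg_right h5 h4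
        _ = δ₁ / 4 * (T : ℝ) ^ nn * T := by ring
    exact le_of_mul_le_mul_right h3 (by linarith)
  obtain ⟨Y, hY⟩ : ∃ Y : (Fin (k + 2) → Fin (4 * m) × Fin K) →
      Finset (Fin (4 * m) × Fin K → ℕ), Y = fun w => P.filter (fun F => Fam M BC r F ∧
        Function.Injective F ∧ QZ M r (Q (col (grp (w 0).1) (grp (w 1).1))) w F) := ⟨_, rfl⟩
  obtain ⟨I, hI⟩ : ∃ I : Finset (Fin (k + 2) → Fin (4 * m) × Fin K),
      I = univ.filter (fun w => Function.Injective w ∧ grp (w 0).1 < grp (w 1).1) := ⟨_, rfl⟩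
  have hYc : ∀ w ∈ I, ((Y w).card : ℝ) ≤ δ₁ / (4 * Nn) * (T : ℝ) ^ nn := by
    intro w hw
    rw [hI] at hw
    obtain ⟨-, hw1, hw2⟩ := mem_filter.1 hw
    have h1 := key4 m K T M k H BC r (Q (col (grp (w 0).1) (grp (w 1).1))) (c * (H : ℝ) ^ k) hM0
      hBCI w hw1 (fun d hd => by
        rw [hBC] at hd
        obtain ⟨hd1, hd2⟩ := mem_filter.1 hd
        have h3 := hκ' d hd1
        rw [hd2] at h3
        exact h3.le) (by positivity) hw2
    rw [← hP, ← hnn] at h1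
    have h1' : ((Y w).card : ℝ) * (T : ℝ) ^ k ≤ c * (H : ℝ) ^ k * (T : ℝ) ^ nn := by
      rw [hY]
      exact h1
    have h2 : (H : ℝ) ^ k ≤ (M : ℝ) ^ k * (T : ℝ) ^ k := by
      rw [← mul_pow]
      apply pow_le_pow_left₀ hH0
      have : H ≤ M * T := by omega
      exact_mod_cast this
    have h3 : c * (M : ℝ) ^ k = δ₁ / (4 * Nn) := by
      rw [hc]
      field_simp
    have h4 : ((Y w).card : ℝ) * (T : ℝ) ^ k ≤ (δ₁ / (4 * Nn) * (T : ℝ) ^ nn) * (T : ℝ) ^ k := by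
      refine h1'.trans ?_
      calc c * (H : ℝ) ^ k * (T : ℝ) ^ nn ≤ c * ((M : ℝ) ^ k * (T : ℝ) ^ k) * (T : ℝ) ^ nn := by
            apply mul_le_mul_of_nonneg_right _ (by positivity)
            exact mul_le_mul_of_nonneg_left h2 hc0.le
        _ = (c * (M : ℝ) ^ k) * (T : ℝ) ^ nn * (T : ℝ) ^ k := by ring
        _ = _ := by rw [h3]
    exact le_of_mul_le_mul_right h4 (by positivity)
  have hX3c : ((I.biUnion Y).card : ℝ) ≤ δ₁ / 4 * (T : ℝ) ^ nn := by
    have h1 : ((I.biUnion Y).card : ℝ) ≤ ∑ w ∈ I, ((Y w).card : ℝ) := by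
      exact_mod_cast card_biUnion_le
    refine h1.trans ((sum_le_sum hYc).trans ?_)
    rw [sum_const, nsmul_eq_mul]
    have h2 : (I.card : ℝ) ≤ Nn := by
      have h3 : I.card ≤ Fintype.card (Fin (k + 2) → Fin (4 * m) × Fin K) := by
        rw [← card_univ]
        exact card_le_card (subset_univ _)
      rw [hNn]
      have : (I.card : ℝ) ≤ (Fintype.card (Fin (k + 2) → Fin (4 * m) × Fin K) : ℝ) := by
        exact_mod_cast h3
      linarith
    calc (I.card : ℝ) * (δ₁ / (4 * Nn) * (T : ℝ) ^ nn) ≤ Nn * (δ₁ / (4 * Nn) * (T : ℝ) ^ nn) :=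
          mul_le_mul_of_nonneg_right h2 (by positivity)
      _ = _ := by field_simp
  obtain ⟨F, hF1, hF2, hF3, hF4⟩ : ∃ F ∈ P, Fam M BC r F ∧ Function.Injective F ∧ F ∉ I.biUnion Y := by
    by_contra hno
    push Not at hno
    have hcover : P.filter (fun F => Fam M BC r F) ⊆ X2 ∪ I.biUnion Y := by
      intro F hF
      obtain ⟨hF1, hF2⟩ := mem_filter.1 hF
      by_cases h4 : Function.Injective F
      · exact mem_union_right _ (hno F hF1 hF2 h4)
      · apply mem_union_left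
        rw [hX2]
        exact mem_filter.2 ⟨hF1, h4⟩
    have hfin : ((P.filter (fun F => Fam M BC r F)).card : ℝ) ≤ X2.card + (I.biUnion Y).card := by
      have h1 := (card_le_card hcover).trans (card_union_le _ _)
      exact_mod_cast h1
    have h3 : 0 < δ₁ * (T : ℝ) ^ nn := by positivity
    linarith
  have hne : ((Fintype.piFinset (fun _ : Fin 4 => range T)).filter
      (fun t => PPC BC c₃ (fun g => r g + M * t g))).Nonempty := by
    rw [← card_pos]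
    have h1 : (0 : ℝ) < (((Fintype.piFinset (fun _ : Fin 4 => range T)).filter
      (fun t => PPC BC c₃ (fun g => r g + M * t g))).card : ℝ) := lt_of_lt_of_le (by positivity) hdens
    exact_mod_cast h1
  obtain ⟨t, ht⟩ := hne
  obtain ⟨-, -, ht3⟩ := mem_filter.1 ht
  have h3M : 3 ∣ M := by
    rw [hM]
    refine (Nat.prime_three.dvd_factorial).2 ?_
    have : 1 ≤ m * K := Nat.mul_pos (by omega) hK
    have e : 4 * m * K = 4 * (m * K) := by ring
    omega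
  rw [hP] at hF1
  refine ⟨c₃, r, F, col, hr1, fun z => ?_, fun g => ?_, pos_inj hM0 hF2 hF3,
    fun z z' h => (hF2 z z' h).1, ?_⟩
  · have h1 := mem_range.1 (Fintype.mem_piFinset.1 hF1 z)
    rw [← hT]
    exact h1
  · have h1 := ht3 g
    have h2 : (r g + M * t g) % 3 = r g % 3 := by
      obtain ⟨m, hm⟩ := h3M
      rw [hm, mul_assoc, Nat.add_mul_mod_self_left]
    rw [h2] at h1
    exact h1
  · intro zf hg h01 hQ
    apply hF4
    refine mem_biUnion.2 ⟨zf, ?_, ?_⟩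
    · rw [hI]
      exact mem_filter.2 ⟨mem_univ _, hg, h01⟩
    · rw [hY, hP]
      exact mem_filter.2 ⟨hF1, hF2, hF3, hQ⟩

end Pool.Agent.J6H13.CP
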