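import Pool.Agent.J6H13.CP.Cfg
import Pool.Agent.J6H13.CP.Key4
import Pool.Agent.Y827.HN.Pat

/-! One third of all `d` are differences in many exact blocks of consecutive primes, with every number of
primes in between. -/

set_option autoImplicit false

namespace Pool.Agent.J6H13.CP

open Finset Filter Topology

theorem pat_of (m : ℕ) (hm : 1 ≤ m) : ∃ K : ℕ, 1 ≤ K ∧ Pat (4 * m) m K := by
  classical
  obtain ⟨K, hK, hpat⟩ := Pool.Agent.Y827.HN.patR (4 * m) m (by omega) (by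
    push_cast
    have : (1 : ℝ) ≤ m := by exact_mod_cast hm
    linarith)
  refine ⟨K, hK, fun Hf h1 h2 h3 U hU => ?_⟩
  obtain ⟨C, hC⟩ := hpat Hf h1 h2 h3 U hU 1
  refine ⟨C, ?_⟩
  filter_upwards [hC] with N hN
  obtain ⟨S, cc, hS, hA⟩ := hN
  obtain ⟨D, -, -, hD⟩ := hA _ (Subset.refl _)
  refine ⟨S, cc, hS, hD.trans ?_⟩
  rw [Nat.cast_le]
  unfold Pool.Agent.Y827.HN.cntX
  apply card_le_card
  intro n hn
  rw [mem_filter] at hn ⊢
  have h4 := hn.2 0 one_pos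
  simp only [zero_mul, add_zero] at h4
  exact ⟨hn.1, fun g hg => h4.1 _ (mem_image.2 ⟨g, hg, rfl⟩), fun u hu => h4.2 u (mem_union_right _ hu)⟩

open Classical in
/-- the vectors `t` in `[-H, H] ^ k` with different coordinates `≠ 0, d`, exactly `r` of them between `0` and
`d`, such that for at least `x / (log x) ^ C` of the `n ≤ x`, `n ≡ a (mod q)`, the numbers `n + q h`,
`h ∈ {0, d, t_1, ..., t_k}`, are consecutive primes -/
noncomputable def exactTuples (k q a C H x r d : ℕ) : Finset (Fin k → ℤ) :=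
  (Fintype.piFinset (fun _ : Fin k => Icc (-(H : ℤ)) H)).filter (fun t => Function.Injective t ∧
    (∀ i, t i ≠ 0 ∧ t i ≠ d) ∧ (univ.filter (fun i => 0 < t i ∧ t i < d)).card = r ∧
    (x : ℝ) / Real.log x ^ C ≤ (blocks q a d t x : ℝ))

open Classical in
/-- the vectors `t` in `[-H, H] ^ k` with different coordinates `≠ 0, d`, exactly `r` of them between `0` and
`d`, such that for infinitely many `n ≡ a (mod q)` the numbers `n + q h`, `h ∈ {0, d, t_1, ..., t_k}`, are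
consecutive primes -/
noncomputable def exactTuplesInf (k q a H r d : ℕ) : Finset (Fin k → ℤ) :=
  (Fintype.piFinset (fun _ : Fin k => Icc (-(H : ℤ)) H)).filter (fun t => Function.Injective t ∧
    (∀ i, t i ≠ 0 ∧ t i ≠ d) ∧ (univ.filter (fun i => 0 < t i ∧ t i < d)).card = r ∧
      {n : ℕ | n ≡ a [MOD q] ∧ Consecutive q n (shifts d t)}.Infinite)

/-- the configurations used -/
def Valid (m K M T : ℕ) (w : (Fin 4 → Fin M) × (Fin (4 * m) × Fin K → Fin T)) : Prop :=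
  (∃ c₃ : ℕ, ∀ g, (w.1 g : ℕ) % 3 = 0 ∨ (w.1 g : ℕ) % 3 = c₃) ∧
  Function.Injective (pos M (fun g => (w.1 g : ℕ)) (fun z => (w.2 z : ℕ))) ∧
  (∀ z z' : Fin (4 * m) × Fin K, grp z.1 < grp z'.1 →
    pos M (fun g => (w.1 g : ℕ)) (fun z => (w.2 z : ℕ)) z <
      pos M (fun g => (w.1 g : ℕ)) (fun z => (w.2 z : ℕ)) z')

/-- the conclusion for the positions `po` -/
def Found (k m K q a : ℕ) (po : Fin (4 * m) × Fin K → ℕ) (col : Fin 4 → Fin 4 → Fin (k + 1)) (C x : ℕ) :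
    Prop :=
  ∃ z : Fin (k + 2) → Fin (4 * m) × Fin K, Function.Injective z ∧
    grp (z 0).1 < grp (z 1).1 ∧
    (univ.filter (fun i : Fin k => po (z 0) < po (z i.succ.succ) ∧
      po (z i.succ.succ) < po (z 1))).card = (col (grp (z 0).1) (grp (z 1).1) : ℕ) ∧
    (x : ℝ) / Real.log x ^ C ≤ (blocks q a (po (z 1) - po (z 0))
      (fun i : Fin k => (po (z i.succ.succ) : ℤ) - po (z 0)) x : ℝ)

theorem log_ge_one {x : ℕ} (hx : 3 ≤ x) : 1 ≤ Real.log x := by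
  have h1 : Real.exp 1 ≤ (x : ℝ) := by
    have h2 : (3 : ℝ) ≤ x := by exact_mod_cast hx
    linarith [Real.exp_one_lt_d9]
  have h3 := Real.log_le_log (Real.exp_pos 1) h1
  rwa [Real.log_exp] at h3

open Classical in
theorem one_third (k : ℕ) (ε : ℝ) (hε : 0 < ε) : ∃ c : ℝ, 0 < c ∧ ∃ L : ℕ, ∀ q a : ℕ, 1 ≤ q → Even q →
    Nat.Coprime a q → ∀ H : ℕ, L ≤ H → ∃ C X₀ : ℕ, ∀ x : ℕ, X₀ ≤ x → (1 / 3 - ε) * (H : ℝ) ≤
      (((Icc 1 H).filter (fun d : ℕ => ∀ r ≤ k, c * (H : ℝ) ^ k ≤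
        ((exactTuples k q a C H x r d).card : ℝ))).card : ℝ) := by
  obtain ⟨m, hm⟩ : ∃ m, m = 4 * k + 3 := ⟨_, rfl⟩
  obtain ⟨K, hK, hpat⟩ := pat_of m (by omega)
  obtain ⟨c, hc, L, hL⟩ := config4 k m K (by omega) hK ε hε
  refine ⟨c, hc, L, fun q a hq hq2 ha H hH => ?_⟩
  obtain ⟨b, hb⟩ := hq2
  obtain ⟨M, hM⟩ : ∃ M, M = (4 * m * K).factorial := ⟨_, rfl⟩
  have hL' := hL H hH
  rw [← hM] at hL'
  obtain ⟨T, hT⟩ : ∃ T, T = 5 * H / M + 1 := ⟨_, rfl⟩
  rw [← hT] at hL'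
  have hcfg : ∀ w : ((Fin 4 → Fin M) × (Fin (4 * m) × Fin K → Fin T)) × (Fin 4 → Fin 4 → Fin (k + 1)),
      ∃ C : ℕ, Valid m K M T w.1 → ∀ᶠ x : ℕ in atTop,
        Found k m K q a (pos M (fun g => (w.1.1 g : ℕ)) (fun z => (w.1.2 z : ℕ))) w.2 C x := by
    intro w
    by_cases hw : Valid m K M T w.1
    swap
    · exact ⟨0, fun h => absurd h hw⟩
    obtain ⟨⟨c₃, h3⟩, hinj, hcross⟩ := hw
    obtain ⟨C, hC⟩ := config_good (T := 4 * m) (M := m) (K := K) (k := k) (by omega) grp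
      (fun S hS => two_groups S hS) hpat q a hq ha
      (pos M (fun g => (w.1.1 g : ℕ)) (fun z => (w.1.2 z : ℕ))) hinj hcross (by
        intro p hp hpK _
        obtain ⟨n, hn⟩ := Pool.Agent.N646.TT.loc4 b c₃ (fun g => (w.1.1 g : ℕ)) h3 p hp
        refine ⟨n, fun z hd => hn (grp z.1) ?_⟩
        have hpM : (p : ℤ) ∣ (M : ℤ) := by
          have : p ∣ M := by rw [hM]; exact (hp.dvd_factorial).2 hpK
          exact_mod_cast this
        have h1 : n + 2 * (b : ℤ) * ((w.1.1 (grp z.1) : ℕ) : ℤ) =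
            (n + (q : ℤ) * (pos M (fun g => (w.1.1 g : ℕ)) (fun z => (w.1.2 z : ℕ)) z : ℕ)) -
            M * (2 * b * ((w.1.2 z : ℕ) : ℤ)) := by
          unfold pos
          rw [hb]
          push_cast
          ring
        rw [h1]
        exact dvd_sub hd (hpM.mul_right _)) w.2
    exact ⟨C, fun _ => hC⟩
  choose Cf hCf using hcfg
  obtain ⟨C, hCdef⟩ : ∃ C, C = ∑ w, Cf w := ⟨_, rfl⟩
  have hCle : ∀ w, Cf w ≤ C := fun w => by
    rw [hCdef]
    exact single_le_sum (f := Cf) (fun _ _ => Nat.zero_le _) (mem_univ w)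
  have hall : ∀ᶠ x : ℕ in atTop,
      ∀ w : ((Fin 4 → Fin M) × (Fin (4 * m) × Fin K → Fin T)) × (Fin 4 → Fin 4 → Fin (k + 1)),
      Valid m K M T w.1 →
        Found k m K q a (pos M (fun g => (w.1.1 g : ℕ)) (fun z => (w.1.2 z : ℕ))) w.2 (Cf w) x := by
    rw [eventually_all]
    intro w
    by_cases hw : Valid m K M T w.1
    · filter_upwards [hCf w hw] with x hx _
      exact hx
    · exact Eventually.of_forall fun x h => absurd h hw
  obtain ⟨X₁, hX₁⟩ := eventually_atTop.1 hall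
  refine ⟨C, max X₁ 3, fun x hx => ?_⟩
  have hx3 : 3 ≤ x := le_trans (le_max_right _ _) hx
  have hxw := hX₁ x (le_trans (le_max_left _ _) hx)
  by_contra hcon
  obtain ⟨Q, hQ⟩ : ∃ Q : Fin (k + 1) → ℕ → (Fin k → ℤ) → Prop, ∀ ρ d t, Q ρ d t ↔
      (univ.filter (fun i => 0 < t i ∧ t i < d)).card = (ρ : ℕ) ∧
      (x : ℝ) / Real.log x ^ C ≤ (blocks q a d t x : ℝ) := ⟨_, fun _ _ _ => Iff.rfl⟩
  obtain ⟨c₃, r, F, col, hr, hF, h3, hinj, hcross, hno⟩ := hL' Q (by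
      intro h
      apply hcon
      refine h.trans ?_
      rw [Nat.cast_le]
      apply card_le_card
      intro d hd
      obtain ⟨hd1, hd2⟩ := mem_filter.1 hd
      refine mem_filter.2 ⟨hd1, fun ρ hρ => (hd2 ⟨ρ, Nat.lt_succ_of_le hρ⟩).trans ?_⟩
      rw [Nat.cast_le]
      apply card_le_card
      intro t ht
      obtain ⟨h1, h2, h4, h5⟩ := mem_filter.1 ht
      have h6 := (hQ _ d t).1 h5
      exact mem_filter.2 ⟨h1, h2, h4, h6.1, h6.2⟩)
  obtain ⟨w, hw⟩ : ∃ w : ((Fin 4 → Fin M) × (Fin (4 * m) × Fin K → Fin T)) ×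
      (Fin 4 → Fin 4 → Fin (k + 1)),
      w = ((fun g => ⟨r g, hr g⟩, fun z => ⟨F z, hF z⟩), col) := ⟨_, rfl⟩
  have hw1 : (fun g => (w.1.1 g : ℕ)) = r := by rw [hw]
  have hw2 : (fun z => (w.1.2 z : ℕ)) = F := by rw [hw]
  have hw3 : w.2 = col := by rw [hw]
  have hval : Valid m K M T w.1 := by
    unfold Valid
    rw [hw1, hw2]
    refine ⟨⟨c₃, fun g => ?_⟩, hinj, hcross⟩
    have h4 : (w.1.1 g : ℕ) = r g := congrFun hw1 g
    rw [h4]
    exact h3 g
  have hfound := hxw w hval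
  rw [hw1, hw2, hw3] at hfound
  obtain ⟨z, hz1, hz2, hz3, hz4⟩ := hfound
  apply hno z hz1 hz2
  unfold QZ
  have hlt := hcross (z 0) (z 1) hz2
  rw [hQ]
  refine ⟨?_, ?_⟩
  · rw [← hz3]
    congr 1
    apply filter_congr
    intro i _
    show (0 < (pos M r F (z i.succ.succ) : ℤ) - pos M r F (z 0) ∧
      (pos M r F (z i.succ.succ) : ℤ) - pos M r F (z 0) < ((pos M r F (z 1) - pos M r F (z 0) : ℕ) : ℤ)) ↔ _
    omega
  · refine le_trans ?_ hz4
    have hl := log_ge_one hx3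
    exact div_le_div_of_nonneg_left (Nat.cast_nonneg _) (by positivity)
      (pow_le_pow_right₀ hl (hCle w))

theorem tendsto_div_log_pow (C : ℕ) :
    Tendsto (fun x : ℕ => (x : ℝ) / Real.log x ^ C) atTop atTop := by
  have h1 : (fun x : ℝ => Real.log x ^ C) =o[atTop] (fun x : ℝ => x) := Real.isLittleO_pow_log_id_atTop
  have h2 : Tendsto (fun x : ℝ => Real.log x ^ C / x) atTop (𝓝 0) := h1.tendsto_div_nhds_zero
  have h3 : ∀ᶠ x : ℝ in atTop, 0 < Real.log x ^ C / x := by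
    filter_upwards [eventually_gt_atTop (1 : ℝ)] with x hx
    have := Real.log_pos hx
    positivity
  have h4 : Tendsto (fun x : ℝ => Real.log x ^ C / x) atTop (𝓝[>] 0) :=
    tendsto_nhdsWithin_iff.2 ⟨h2, h3⟩
  have h5 : Tendsto (fun x : ℝ => (Real.log x ^ C / x)⁻¹) atTop atTop := tendsto_inv_nhdsGT_zero.comp h4
  have h6 := h5.comp (tendsto_natCast_atTop_atTop (R := ℝ))
  refine h6.congr fun x => ?_
  simp only [Function.comp]
  rw [inv_div]

open Classical in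
theorem blocks_inf (k q a C H : ℕ) : ∀ᶠ x : ℕ in atTop, ∀ d ∈ Icc 1 H, ∀ r,
    exactTuples k q a C H x r d ⊆ exactTuplesInf k q a H r d := by
  rw [Filter.eventually_all_finset]
  intro d _
  have h1 : ∀ᶠ x : ℕ in atTop, ∀ t ∈ Fintype.piFinset (fun _ : Fin k => Icc (-(H : ℤ)) H),
      (x : ℝ) / Real.log x ^ C ≤ (blocks q a d t x : ℝ) →
        {n : ℕ | n ≡ a [MOD q] ∧ Consecutive q n (shifts d t)}.Infinite := by
    rw [Filter.eventually_all_finset]
    intro t _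
    by_cases hinf : {n : ℕ | n ≡ a [MOD q] ∧ Consecutive q n (shifts d t)}.Infinite
    · exact Eventually.of_forall fun _ _ => hinf
    rw [Set.not_infinite] at hinf
    filter_upwards [(tendsto_div_log_pow C).eventually_gt_atTop (hinf.toFinset.card : ℝ)] with x hx hx2
    exfalso
    have h2 : blocks q a d t x ≤ hinf.toFinset.card := by
      unfold blocks
      apply card_le_card
      intro n hn
      rw [Set.Finite.mem_toFinset]
      exact (mem_filter.1 hn).2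
    have h3 : (blocks q a d t x : ℝ) ≤ hinf.toFinset.card := by exact_mod_cast h2
    linarith
  filter_upwards [h1] with x hx
  intro r t ht
  obtain ⟨h2, h3, h4, h5, h6⟩ := mem_filter.1 ht
  exact mem_filter.2 ⟨h2, h3, h4, h5, hx t h2 h6⟩

open Classical in
theorem main (k : ℕ) (ε : ℝ) (hε : 0 < ε) : ∃ c : ℝ, 0 < c ∧ ∃ L : ℕ, ∀ q a : ℕ, 1 ≤ q → Even q →
    Nat.Coprime a q → ∀ H : ℕ, L ≤ H →
      (∃ C X₀ : ℕ, ∀ x : ℕ, X₀ ≤ x → (1 / 3 - ε) * (H : ℝ) ≤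
        (((Icc 1 H).filter (fun d : ℕ => ∀ r ≤ k, c * (H : ℝ) ^ k ≤
          ((exactTuples k q a C H x r d).card : ℝ))).card : ℝ)) ∧
      (1 / 3 - ε) * (H : ℝ) ≤ (((Icc 1 H).filter (fun d : ℕ => ∀ r ≤ k, c * (H : ℝ) ^ k ≤
          ((exactTuplesInf k q a H r d).card : ℝ))).card : ℝ) := by
  obtain ⟨c, hc, L, hL⟩ := one_third k ε hε
  refine ⟨c, hc, L, fun q a hq hq2 ha H hH => ⟨hL q a hq hq2 ha H hH, ?_⟩⟩
  obtain ⟨C, X₀, hX⟩ := hL q a hq hq2 ha H hH
  obtain ⟨x, hx1, hx2⟩ := ((blocks_inf k q a C H).and (eventually_ge_atTop X₀)).exists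
  refine (hX x hx2).trans ?_
  rw [Nat.cast_le]
  apply card_le_card
  intro d hd
  obtain ⟨hd1, hd2⟩ := mem_filter.1 hd
  refine mem_filter.2 ⟨hd1, fun r hr => (hd2 r hr).trans ?_⟩
  rw [Nat.cast_le]
  exact card_le_card (hx1 d hd1 r)

end Pool.Agent.J6H13.CP
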