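import Mathlib

/-! Blocks of consecutive elements of a finite set in four groups. -/

set_option autoImplicit false

namespace Pool.Agent.J6H13.CP

open Finset

section sel

variable {α : Type} [DecidableEq α]

/-- enlarging a block of consecutive elements -/
theorem grow (P : Finset α) (po : α → ℕ) (hinj : Function.Injective po) (W₀ : Finset α) (hW₀ : W₀ ⊆ P)
    (hne : W₀.Nonempty)
    (hconv₀ : ∀ u ∈ P, (∃ w ∈ W₀, po w ≤ po u) → (∃ w ∈ W₀, po u ≤ po w) → u ∈ W₀) (m : ℕ)
    (hm : W₀.card ≤ m) (hmP : m ≤ P.card) : ∃ W ⊆ P, W.card = m ∧ W₀ ⊆ W ∧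
      ∀ u ∈ P, (∃ w ∈ W, po w ≤ po u) → (∃ w ∈ W, po u ≤ po w) → u ∈ W := by
  induction m, hm using Nat.le_induction with
  | base => exact ⟨W₀, hW₀, rfl, Subset.refl _, hconv₀⟩
  | succ m hm ih =>
    obtain ⟨W, hWP, hWc, hWW, hconv⟩ := ih (by omega)
    obtain ⟨p, hp⟩ := hne
    have hpW : p ∈ W := hWW hp
    have hout : ∀ u ∈ P, u ∉ W → (∀ w ∈ W, po w < po u) ∨ (∀ w ∈ W, po u < po w) := by
      intro u hu huW
      by_contra hcon
      push Not at hcon
      obtain ⟨⟨w, hw, h1⟩, w', hw', h2⟩ := hcon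
      exact huW (hconv u hu ⟨w', hw', h2⟩ ⟨w, hw, h1⟩)
    obtain ⟨v, hvP, hvW⟩ : ∃ v ∈ P, v ∉ W := by
      by_contra hcon
      push Not at hcon
      have := card_le_card (s := P) (t := W) hcon
      omega
    by_cases hA : (P.filter (fun u => ∀ w ∈ W, po w < po u)).Nonempty
    · obtain ⟨u, hu, humin⟩ := exists_min_image _ po hA
      obtain ⟨huP, huW⟩ := mem_filter.1 hu
      have hu' : u ∉ W := fun h => lt_irrefl _ (huW u h)
      refine ⟨insert u W, ?_, ?_, hWW.trans (subset_insert _ _), ?_⟩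
      · exact insert_subset huP hWP
      · rw [card_insert_of_notMem hu', hWc]
      · rintro y hy ⟨w, hw, hwy⟩ ⟨w', hw', hyw⟩
        by_cases hyW : y ∈ W
        · exact mem_insert_of_mem hyW
        rcases hout y hy hyW with h | h
        · have h1 := humin y (mem_filter.2 ⟨hy, h⟩)
          have h2 : po y ≤ po u := by
            rcases mem_insert.1 hw' with rfl | hw'
            · exact hyw
            · have := h w' hw'; omega
          rw [hinj (le_antisymm h2 h1)]
          exact mem_insert_self _ _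
        · exfalso
          have h1 : po u ≤ po y := by
            rcases mem_insert.1 hw with rfl | hw
            · exact hwy
            · have := h w hw; omega
          have h2 := h p hpW
          have h3 := huW p hpW
          omega
    · have hB : (P.filter (fun u => ∀ w ∈ W, po u < po w)).Nonempty := by
        refine ⟨v, mem_filter.2 ⟨hvP, ?_⟩⟩
        rcases hout v hvP hvW with h | h
        · exact absurd ⟨v, mem_filter.2 ⟨hvP, h⟩⟩ hA
        · exact h
      obtain ⟨u, hu, humax⟩ := exists_max_image _ po hB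
      obtain ⟨huP, huW⟩ := mem_filter.1 hu
      have hu' : u ∉ W := fun h => lt_irrefl _ (huW u h)
      refine ⟨insert u W, ?_, ?_, hWW.trans (subset_insert _ _), ?_⟩
      · exact insert_subset huP hWP
      · rw [card_insert_of_notMem hu', hWc]
      · rintro y hy ⟨w, hw, hwy⟩ ⟨w', hw', hyw⟩
        by_cases hyW : y ∈ W
        · exact mem_insert_of_mem hyW
        rcases hout y hy hyW with h | h
        · exact absurd ⟨y, mem_filter.2 ⟨hy, h⟩⟩ hA
        · have h1 := humax y (mem_filter.2 ⟨hy, h⟩)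
          have h2 : po u ≤ po y := by
            rcases mem_insert.1 hw with rfl | hw
            · exact hwy
            · have := h w hw; omega
          rw [hinj (le_antisymm h1 h2)]
          exact mem_insert_self _ _

/-- enumeration of a set with two marked elements -/
theorem enum {k : ℕ} (W : Finset α) (hW : W.card = k + 2) (p p' : α) (hp : p ∈ W) (hp' : p' ∈ W)
    (hne : p ≠ p') : ∃ z : Fin (k + 2) → α, Function.Injective z ∧ (∀ i, z i ∈ W) ∧ z 0 = p ∧
      z 1 = p' ∧ ∀ w ∈ W, ∃ i, z i = w := by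
  have hc : ((W.erase p).erase p').card = k := by
    rw [card_erase_of_mem (mem_erase.2 ⟨hne.symm, hp'⟩), card_erase_of_mem hp]
    omega
  obtain ⟨e⟩ : Nonempty (Fin k ≃ {x // x ∈ (W.erase p).erase p'}) :=
    ⟨(Finset.equivFinOfCardEq hc).symm⟩
  have he : ∀ i, (e i : α) ∈ (W.erase p).erase p' := fun i => (e i).2
  have he1 : ∀ i, (e i : α) ≠ p' := fun i => (mem_erase.1 (he i)).1
  have he2 : ∀ i, (e i : α) ≠ p := fun i => (mem_erase.1 (mem_erase.1 (he i)).2).1
  have he3 : ∀ i, (e i : α) ∈ W := fun i => (mem_erase.1 (mem_erase.1 (he i)).2).2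
  refine ⟨Fin.cons p (Fin.cons p' (fun i => (e i : α))), ?_, ?_, rfl, rfl, ?_⟩
  · rw [Fin.cons_injective_iff, Fin.cons_injective_iff]
    refine ⟨?_, ?_, ?_⟩
    · rintro ⟨i, hi⟩
      revert hi
      refine Fin.cases ?_ (fun i => ?_) i
      · intro hi; exact hne hi.symm
      · intro hi; exact he2 i hi
    · rintro ⟨i, hi⟩
      exact he1 i hi
    · intro i j hij
      exact e.injective (Subtype.ext hij)
  · intro i
    refine Fin.cases ?_ (fun i => ?_) i
    · exact hp
    · refine Fin.cases ?_ (fun i => ?_) i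
      · exact hp'
      · exact he3 i
  · intro w hw
    by_cases h1 : w = p
    · exact ⟨0, h1.symm⟩
    by_cases h2 : w = p'
    · exact ⟨1, h2.symm⟩
    · obtain ⟨i, hi⟩ := e.surjective ⟨w, mem_erase.2 ⟨h2, mem_erase.2 ⟨h1, hw⟩⟩⟩
      refine ⟨i.succ.succ, ?_⟩
      show (e i : α) = w
      rw [hi]

omit [DecidableEq α] in
/-- two neighbouring nonempty groups with many elements -/
theorem neighbours {k : ℕ} (P : Finset α) (gr : α → Fin 4) (hP : 4 * k + 4 ≤ P.card)
    (htwo : ∃ u ∈ P, ∃ v ∈ P, gr u < gr v) : ∃ i j : Fin 4, i < j ∧ (∃ u ∈ P, gr u = i) ∧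
      (∃ u ∈ P, gr u = j) ∧ (∀ u ∈ P, ¬ (i < gr u ∧ gr u < j)) ∧
      k + 2 ≤ (P.filter (fun u => gr u = i ∨ gr u = j)).card := by
  classical
  obtain ⟨i₀, -, hi₀⟩ : ∃ i₀ ∈ (univ : Finset (Fin 4)), k + 1 ≤ (P.filter (fun u => gr u = i₀)).card := by
    apply exists_le_card_fiber_of_mul_le_card_of_maps_to (fun _ _ => mem_univ _) ⟨0, mem_univ _⟩
    rw [card_univ, Fintype.card_fin]
    omega
  have hsum : ∀ i j : Fin 4, i ≠ j → (∃ u ∈ P, gr u = j) → k + 1 ≤ (P.filter (fun u => gr u = i)).card →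
      k + 2 ≤ (P.filter (fun u => gr u = i ∨ gr u = j)).card := by
    rintro i j hij ⟨u, hu, hu2⟩ h
    rw [filter_or, card_union_of_disjoint]
    · have h1 : 0 < (P.filter (fun u => gr u = j)).card := card_pos.2 ⟨u, mem_filter.2 ⟨hu, hu2⟩⟩
      omega
    · rw [disjoint_filter]
      intro x _ h1 h2
      exact hij (h1.symm.trans h2)
  have hne : ∃ u ∈ P, gr u = i₀ := by
    obtain ⟨u, hu⟩ := card_pos.1 (show 0 < (P.filter (fun u => gr u = i₀)).card by omega)
    exact ⟨u, (mem_filter.1 hu).1, (mem_filter.1 hu).2⟩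
  obtain ⟨v, hv, hv2⟩ : ∃ v ∈ P, gr v ≠ i₀ := by
    obtain ⟨u, hu, v, hv, h⟩ := htwo
    by_cases h1 : gr u = i₀
    · exact ⟨v, hv, fun h2 => by rw [h1, h2] at h; exact lt_irrefl _ h⟩
    · exact ⟨u, hu, h1⟩
  rcases lt_or_gt_of_ne hv2 with h | h
  · obtain ⟨w, hw, hwmax⟩ := exists_max_image (P.filter (fun u => gr u < i₀)) gr
      ⟨v, mem_filter.2 ⟨hv, h⟩⟩
    obtain ⟨hw1, hw2⟩ := mem_filter.1 hw
    refine ⟨gr w, i₀, hw2, ⟨w, hw1, rfl⟩, hne, ?_, ?_⟩
    · rintro u hu ⟨h1, h2⟩
      have := hwmax u (mem_filter.2 ⟨hu, h2⟩)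
      exact absurd h1 (not_lt.2 this)
    · have h1 := hsum i₀ (gr w) hw2.ne' ⟨w, hw1, rfl⟩ hi₀
      refine h1.trans (card_le_card ?_)
      intro x hx
      obtain ⟨hx1, hx2⟩ := mem_filter.1 hx
      exact mem_filter.2 ⟨hx1, hx2.symm⟩
  · obtain ⟨w, hw, hwmin⟩ := exists_min_image (P.filter (fun u => i₀ < gr u)) gr
      ⟨v, mem_filter.2 ⟨hv, h⟩⟩
    obtain ⟨hw1, hw2⟩ := mem_filter.1 hw
    refine ⟨i₀, gr w, hw2, hne, ⟨w, hw1, rfl⟩, ?_, ?_⟩
    · rintro u hu ⟨h1, h2⟩
      have := hwmin u (mem_filter.2 ⟨hu, h1⟩)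
      exact absurd h2 (not_lt.2 this)
    · exact hsum i₀ (gr w) hw2.ne ⟨w, hw1, rfl⟩ hi₀

/-- a block of `k + 2` consecutive elements with two marked elements, in different groups, between which
there is the number of elements which is prescribed for their groups -/
theorem select {k : ℕ} (P : Finset α) (po : α → ℕ) (hinj : Function.Injective po) (gr : α → Fin 4)
    (hcross : ∀ u v, gr u < gr v → po u < po v) (hP : 4 * k + 4 ≤ P.card)
    (htwo : ∃ u ∈ P, ∃ v ∈ P, gr u < gr v) (col : Fin 4 → Fin 4 → Fin (k + 1)) :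
    ∃ z : Fin (k + 2) → α, Function.Injective z ∧ (∀ i, z i ∈ P) ∧ gr (z 0) < gr (z 1) ∧
      (univ.filter (fun i : Fin k => po (z 0) < po (z i.succ.succ) ∧
        po (z i.succ.succ) < po (z 1))).card = (col (gr (z 0)) (gr (z 1)) : ℕ) ∧
      ∀ u ∈ P, (∃ i, po (z i) ≤ po u) → (∃ i, po u ≤ po (z i)) → ∃ i, z i = u := by
  obtain ⟨i, j, hij, hi, hj, hbet, hcard⟩ := neighbours P gr hP htwo
  obtain ⟨r, hr⟩ : ∃ r : ℕ, r = (col i j : ℕ) := ⟨_, rfl⟩
  have hrk : r ≤ k := by rw [hr]; exact Nat.lt_succ_iff.1 (col i j).2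
  obtain ⟨P', hP'⟩ : ∃ P', P' = P.filter (fun u => gr u = i ∨ gr u = j) := ⟨_, rfl⟩
  rw [← hP'] at hcard
  have hP'P : P' ⊆ P := by rw [hP']; exact filter_subset _ _
  have hP'g : ∀ u ∈ P', gr u = i ∨ gr u = j := fun u hu => by
    rw [hP'] at hu
    exact (mem_filter.1 hu).2
  obtain ⟨a, ha, hamax⟩ := exists_max_image (P.filter (fun u => gr u = i)) po (by
    obtain ⟨u, hu, hu2⟩ := hi
    exact ⟨u, mem_filter.2 ⟨hu, hu2⟩⟩)
  obtain ⟨b, hb, hbmin⟩ := exists_min_image (P.filter (fun u => gr u = j)) po (by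
    obtain ⟨u, hu, hu2⟩ := hj
    exact ⟨u, mem_filter.2 ⟨hu, hu2⟩⟩)
  obtain ⟨ha1, ha2⟩ := mem_filter.1 ha
  obtain ⟨hb1, hb2⟩ := mem_filter.1 hb
  have hab : po a < po b := hcross a b (by rw [ha2, hb2]; exact hij)
  have hane : a ≠ b := fun h => by rw [h] at hab; exact lt_irrefl _ hab
  have haP' : a ∈ P' := by rw [hP']; exact mem_filter.2 ⟨ha1, Or.inl ha2⟩
  have hbP' : b ∈ P' := by rw [hP']; exact mem_filter.2 ⟨hb1, Or.inr hb2⟩
  -- the block of `r + 2` elements around the crossing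
  obtain ⟨W, hWP', hWc, hWab, hWconv⟩ := grow P' po hinj {a, b}
    (insert_subset haP' (singleton_subset_iff.2 hbP')) ⟨a, mem_insert_self _ _⟩ (by
      rintro u hu ⟨w, hw, hwu⟩ ⟨w', hw', huw⟩
      have h1 : po a ≤ po u := by
        rcases mem_insert.1 hw with rfl | hw
        · exact hwu
        · rw [mem_singleton.1 hw] at hwu; omega
      have h2 : po u ≤ po b := by
        rcases mem_insert.1 hw' with rfl | hw'
        · omega
        · rw [mem_singleton.1 hw'] at huw; exact huw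
      rcases hP'g u hu with h3 | h3
      · have h4 := hamax u (mem_filter.2 ⟨hP'P hu, h3⟩)
        rw [hinj (le_antisymm h1 h4)]
        exact mem_insert_self _ _
      · have h4 := hbmin u (mem_filter.2 ⟨hP'P hu, h3⟩)
        rw [hinj (le_antisymm h4 h2)]
        exact mem_insert_of_mem (mem_singleton_self _)) (r + 2) (by
      rw [card_pair hane]; omega) (by omega)
  have haW : a ∈ W := hWab (mem_insert_self _ _)
  have hbW : b ∈ W := hWab (mem_insert_of_mem (mem_singleton_self _))
  have hWP : W ⊆ P := hWP'.trans hP'P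
  have hWconvP : ∀ u ∈ P, (∃ w ∈ W, po w ≤ po u) → (∃ w ∈ W, po u ≤ po w) → u ∈ W := by
    rintro u hu ⟨w, hw, hwu⟩ ⟨w', hw', huw⟩
    refine hWconv u ?_ ⟨w, hw, hwu⟩ ⟨w', hw', huw⟩
    rw [hP']
    refine mem_filter.2 ⟨hu, ?_⟩
    have h1 : i ≤ gr u := by
      by_contra hcon
      push Not at hcon
      have h2 : i ≤ gr w := by
        rcases hP'g w (hWP' hw) with h | h
        · exact h.ge
        · rw [h]; exact hij.le
      have h3 := hcross u w (lt_of_lt_of_le hcon h2)
      omega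
    have h2 : gr u ≤ j := by
      by_contra hcon
      push Not at hcon
      have h2 : gr w' ≤ j := by
        rcases hP'g w' (hWP' hw') with h | h
        · rw [h]; exact hij.le
        · exact h.le
      have h3 := hcross w' u (lt_of_le_of_lt h2 hcon)
      omega
    rcases h1.eq_or_lt with h3 | h3
    · exact Or.inl h3.symm
    · rcases h2.eq_or_lt with h4 | h4
      · exact Or.inr h4
      · exact absurd ⟨h3, h4⟩ (hbet u hu)
  -- its ends
  obtain ⟨p, hp, hpmin⟩ := exists_min_image W po ⟨a, haW⟩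
  obtain ⟨p', hp', hpmax⟩ := exists_max_image W po ⟨a, haW⟩
  have hpi : gr p = i := by
    rcases hP'g p (hWP' hp) with h | h
    · exact h
    · exfalso
      have h1 := hcross a p (by rw [ha2, h]; exact hij)
      have h2 := hpmin a haW
      omega
  have hpj : gr p' = j := by
    rcases hP'g p' (hWP' hp') with h | h
    · exfalso
      have h1 := hcross p' b (by rw [hb2, h]; exact hij)
      have h2 := hpmax b hbW
      omega
    · exact h
  have hpp : po p < po p' := hcross p p' (by rw [hpi, hpj]; exact hij)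
  have hppne : p ≠ p' := fun h => by rw [h] at hpp; exact lt_irrefl _ hpp
  have hPc : k + 2 ≤ P.card := by omega
  obtain ⟨V, hVP, hVc, hWV, hVconv⟩ := grow P po hinj W hWP ⟨a, haW⟩ hWconvP (k + 2) (by omega) hPc
  obtain ⟨z, hz1, hz2, hz3, hz4, hz5⟩ := enum V hVc p p' (hWV hp) (hWV hp') hppne
  refine ⟨z, hz1, fun i => hVP (hz2 i), by rw [hz3, hz4, hpi, hpj]; exact hij, ?_, ?_⟩
  · rw [hz3, hz4, hpi, hpj, ← hr]
    have h1 : (univ.filter (fun i : Fin k => po p < po (z i.succ.succ) ∧
        po (z i.succ.succ) < po p')).card = ((W.erase p).erase p').card := by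
      have h2 : ((univ.filter (fun i : Fin k => po p < po (z i.succ.succ) ∧
          po (z i.succ.succ) < po p')).image (fun i : Fin k => z i.succ.succ)) = (W.erase p).erase p' := by
        ext u
        rw [mem_image, mem_erase, mem_erase]
        constructor
        · rintro ⟨l, hl, rfl⟩
          obtain ⟨-, h3, h4⟩ := mem_filter.1 hl
          refine ⟨fun h => by rw [h] at h4; exact lt_irrefl _ h4,
            fun h => by rw [h] at h3; exact lt_irrefl _ h3, ?_⟩
          exact hWconvP _ (hVP (hz2 _)) ⟨p, hp, h3.le⟩ ⟨p', hp', h4.le⟩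
        · rintro ⟨h3, h4, h5⟩
          have h6 := hpmin u h5
          have h7 := hpmax u h5
          have h8 : po u ≠ po p := fun h => h4 (hinj h)
          have h9 : po u ≠ po p' := fun h => h3 (hinj h)
          obtain ⟨l, hl⟩ := hz5 u (hWV h5)
          revert hl
          refine Fin.cases ?_ (fun l => ?_) l
          · intro hl
            exact absurd (hz3.symm.trans hl).symm h4
          · refine Fin.cases ?_ (fun l => ?_) l
            · intro hl
              exact absurd (hz4.symm.trans hl).symm h3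
            · intro hl
              refine ⟨l, mem_filter.2 ⟨mem_univ _, ?_⟩, hl⟩
              rw [hl]
              omega
      rw [← h2, card_image_of_injective]
      intro l l' h
      exact Fin.succ_injective _ (Fin.succ_injective _ (hz1 h))
    rw [h1, card_erase_of_mem (mem_erase.2 ⟨hppne.symm, hp'⟩), card_erase_of_mem hp, hWc]
    omega
  · rintro u hu ⟨l, hl⟩ ⟨l', hl'⟩
    exact hz5 u (hVconv u hu ⟨z l, hz2 l, hl⟩ ⟨z l', hz2 l', hl'⟩)

end sel

end Pool.Agent.J6H13.CP
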