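import Pool.Agent.N646.TT.Box
import Pool.Agent.N646.TT.Quad

/-! Counting configurations of positions in four groups all of whose differences are in given sets (after
`Pool.Agent.N646.TT.Main`, `Cnt` and `Ext`, with a set of differences for each pair of groups). -/

set_option autoImplicit false

namespace Pool.Agent.J6H13.CP

open Finset
open Pool.Agent.N646.TT (boxes PP)

open Classical in
/-- residues -/
theorem residues (H M T : ℕ) (hM : 1 ≤ M) (hT : 5 * H ≤ M * T) (P : (Fin 4 → ℕ) → Prop) :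
    ∃ r : Fin 4 → ℕ, (∀ g, r g < M) ∧
      ((Fintype.piFinset (fun _ : Fin 4 => range (5 * H))).filter P).card ≤
        M ^ 4 * ((Fintype.piFinset (fun _ : Fin 4 => range T)).filter
          (fun t => P (fun g => r g + M * t g))).card := by
  obtain ⟨R, hR⟩ : ∃ R, R = Fintype.piFinset (fun _ : Fin 4 => range M) := ⟨_, rfl⟩
  have hRc : R.card = M ^ 4 := by
    rw [hR, Fintype.card_piFinset, prod_const, card_univ, Fintype.card_fin, card_range]
  have hne : R.Nonempty := by
    rw [← card_pos, hRc]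
    positivity
  obtain ⟨r, hr, hmax⟩ := exists_max_image R (fun r => ((Fintype.piFinset (fun _ : Fin 4 => range T)).filter
    (fun t => P (fun g => r g + M * t g))).card) hne
  rw [hR] at hr
  refine ⟨r, fun g => mem_range.1 (Fintype.mem_piFinset.1 hr g), ?_⟩
  have h1 : ((Fintype.piFinset (fun _ : Fin 4 => range (5 * H))).filter P).card ≤
      ∑ r' ∈ R, ((Fintype.piFinset (fun _ : Fin 4 => range T)).filter
        (fun t => P (fun g => r' g + M * t g))).card := by
    rw [card_eq_sum_card_fiberwise (f := fun f : Fin 4 → ℕ => fun g => f g % M) (t := R)]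
    · refine sum_le_sum fun r' _ => ?_
      apply card_le_card_of_injOn (fun f => fun g => f g / M)
      · intro f hf
        obtain ⟨hf1, hf2⟩ := mem_filter.1 (mem_coe.1 hf)
        obtain ⟨hf3, hf4⟩ := mem_filter.1 hf1
        have h1 : (fun g => r' g + M * (f g / M)) = f := by
          funext g
          have : f g % M = r' g := congrFun hf2 g
          rw [← this]
          exact Nat.mod_add_div _ _
        refine mem_coe.2 (mem_filter.2 ⟨Fintype.mem_piFinset.2 fun g => ?_, ?_⟩)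
        · rw [mem_range]
          have := mem_range.1 (Fintype.mem_piFinset.1 hf3 g)
          exact Nat.div_lt_of_lt_mul (this.trans_le hT)
        · show P (fun g => r' g + M * (f g / M))
          rw [h1]
          exact hf4
      · intro f hf f' hf' h
        have hf2 := (mem_filter.1 (mem_coe.1 hf)).2
        have hf2' := (mem_filter.1 (mem_coe.1 hf')).2
        funext g
        have h1 : f g % M = f' g % M := (congrFun hf2 g).trans (congrFun hf2' g).symm
        have h2 : f g / M = f' g / M := congrFun h g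
        rw [← Nat.mod_add_div (f g) M, h1, h2, Nat.mod_add_div]
    · intro f _
      rw [hR]
      exact mem_coe.2 (Fintype.mem_piFinset.2 fun g => mem_range.2 (Nat.mod_lt _ (by omega)))
  refine h1.trans ((sum_le_sum fun r' hr' => hmax r' hr').trans (le_of_eq ?_))
  rw [sum_const, hRc, smul_eq_mul]

open Classical in
/-- a box all of whose corners are bad quadruples -/
theorem boxU (K T : ℕ) (hK : 1 ≤ K) (Q : (Fin 4 → ℕ) → Prop) (δ : ℝ) (hδ : 0 ≤ δ)
    (h : δ * (T : ℝ) ^ 4 ≤ (((Fintype.piFinset (fun _ : Fin 4 => range T)).filter Q).card : ℝ)) :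
    δ ^ (K ^ 4) * (T : ℝ) ^ (4 * K) ≤
      (((Fintype.piFinset (fun _ : Fin 4 × Fin K => range T)).filter
        (fun H => ∀ σ : Fin 4 → Fin K, Q (fun g => H (g, σ g)))).card : ℝ) := by
  have h1 := boxes K T hK 4 ({()} : Finset Unit) (fun t _ => Q t) δ hδ (by
    rw [card_singleton, Nat.cast_one, one_mul]
    refine h.trans ?_
    rw [Nat.cast_le]
    apply card_le_card_of_injOn (fun t => (t, ()))
    · intro t ht
      obtain ⟨h1, h2⟩ := mem_filter.1 (mem_coe.1 ht)
      exact mem_coe.2 (mem_filter.2 ⟨mem_product.2 ⟨h1, mem_singleton_self _⟩, h2⟩)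
    · intro t _ t' _ h
      exact (Prod.mk.inj h).1)
  rw [card_singleton, Nat.cast_one, one_mul] at h1
  refine h1.trans ?_
  rw [Nat.cast_le]
  apply card_le_card_of_injOn (fun x => (fun y : Fin 4 × Fin K => x.1 y.1 y.2))
  · intro x hx
    obtain ⟨h2, h3⟩ := mem_filter.1 (mem_coe.1 hx)
    obtain ⟨h4, -⟩ := mem_product.1 h2
    refine mem_coe.2 (mem_filter.2 ⟨Fintype.mem_piFinset.2 fun y => ?_, fun σ => h3 σ⟩)
    exact Fintype.mem_piFinset.1 (Fintype.mem_piFinset.1 h4 y.1) y.2
  · rintro ⟨F, ⟨⟩⟩ _ ⟨F', ⟨⟩⟩ _ h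
    have : F = F' := by
      funext g i
      exact congrFun h (g, i)
    rw [this]

open Classical in
/-- configurations counted through all but few of their coordinates -/
theorem rest {ι : Type} [Fintype ι] [DecidableEq ι] (Z : Finset ι) (T : ℕ) (Y : Finset (ι → ℕ))
    (hY : Y ⊆ Fintype.piFinset (fun _ : ι => range T)) (n : ℝ)
    (h' : ∀ H₀ ∈ Fintype.piFinset (fun _ : ι => range T), ∀ S ⊆ Y,
      (∀ H ∈ S, ∀ z, z ∉ Z → H z = H₀ z) → (S.card : ℝ) ≤ n) :
    (Y.card : ℝ) * (T : ℝ) ^ Z.card ≤ n * (T : ℝ) ^ (Fintype.card ι) := by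
  have h : ∀ H₀ ∈ Fintype.piFinset (fun _ : ι => range T),
      ((Y.filter (fun H => ∀ z, z ∉ Z → H z = H₀ z)).card : ℝ) ≤ n := fun H₀ hH₀ =>
    h' H₀ hH₀ _ (filter_subset _ _) (fun H hH => (mem_filter.1 hH).2)
  obtain ⟨P, hP⟩ : ∃ P, P = Fintype.piFinset (fun _ : ι => range T) := ⟨_, rfl⟩
  rw [← hP] at hY h
  have hPc : (P.card : ℝ) = (T : ℝ) ^ (Fintype.card ι) := by
    rw [hP, Fintype.card_piFinset, prod_const, card_univ, card_range]
    push_cast
    rfl
  have h1 : ∑ H₀ ∈ P, (Y.filter (fun H => ∀ z, z ∉ Z → H z = H₀ z)).card =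
      ∑ H ∈ Y, (P.filter (fun H₀ => ∀ z, z ∉ Z → H z = H₀ z)).card := by
    simp only [card_filter]
    exact sum_comm
  have h2 : ∀ H ∈ Y, T ^ Z.card ≤ (P.filter (fun H₀ => ∀ z, z ∉ Z → H z = H₀ z)).card := by
    intro H hH
    have h3 : (Fintype.piFinset (fun z => if z ∈ Z then range T else {H z})).card = T ^ Z.card := by
      rw [Fintype.card_piFinset]
      have h4 : ∀ z ∈ (univ : Finset ι), (if z ∈ Z then range T else {H z}).card =
          if z ∈ Z then T else 1 := by
        intro z _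
        split_ifs
        · rw [card_range]
        · rw [card_singleton]
      rw [prod_congr rfl h4, prod_ite_mem, univ_inter, prod_const]
    rw [← h3]
    apply card_le_card
    intro H₀ hH₀
    have h4 := Fintype.mem_piFinset.1 hH₀
    refine mem_filter.2 ⟨?_, fun z hz => ?_⟩
    · rw [hP]
      refine Fintype.mem_piFinset.2 fun z => ?_
      have h5 := h4 z
      by_cases hz : z ∈ Z
      · rw [if_pos hz] at h5
        exact h5
      · rw [if_neg hz, mem_singleton] at h5
        rw [h5]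
        have h6 := hY hH
        rw [hP] at h6
        exact Fintype.mem_piFinset.1 h6 z
    · have h5 := h4 z
      rw [if_neg hz, mem_singleton] at h5
      exact h5.symm
  calc (Y.card : ℝ) * (T : ℝ) ^ Z.card = ((∑ _H ∈ Y, T ^ Z.card : ℕ) : ℝ) := by
        rw [sum_const, smul_eq_mul]
        push_cast
        rfl
    _ ≤ ((∑ H ∈ Y, (P.filter (fun H₀ => ∀ z, z ∉ Z → H z = H₀ z)).card : ℕ) : ℝ) :=
        Nat.cast_le.2 (sum_le_sum h2)
    _ = ∑ H₀ ∈ P, ((Y.filter (fun H => ∀ z, z ∉ Z → H z = H₀ z)).card : ℝ) := by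
        rw [← h1, Nat.cast_sum]
    _ ≤ ∑ _H₀ ∈ P, n := sum_le_sum h
    _ = _ := by rw [sum_const, nsmul_eq_mul, hPc, mul_comm]

open Classical in
theorem ninj {ι : Type} [Fintype ι] [DecidableEq ι] (T : ℕ) :
    (((Fintype.piFinset (fun _ : ι => range T)).filter (fun H => ¬ Function.Injective H)).card : ℝ) * T ≤
      (Fintype.card ι : ℝ) ^ 2 * (T : ℝ) ^ (Fintype.card ι) := by
  obtain ⟨P, hP⟩ : ∃ P, P = Fintype.piFinset (fun _ : ι => range T) := ⟨_, rfl⟩
  rw [← hP]
  have h1 : P.filter (fun H => ¬ Function.Injective H) ⊆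
      (univ.filter (fun x : ι × ι => x.1 ≠ x.2)).biUnion
        (fun x => P.filter (fun H => H x.1 = H x.2)) := by
    intro H hH
    obtain ⟨h2, h3⟩ := mem_filter.1 hH
    rw [Function.Injective] at h3
    push Not at h3
    obtain ⟨a, b, h4, h5⟩ := h3
    exact mem_biUnion.2 ⟨(a, b), mem_filter.2 ⟨mem_univ _, h5⟩, mem_filter.2 ⟨h2, h4⟩⟩
  have h2 : ∀ x ∈ univ.filter (fun x : ι × ι => x.1 ≠ x.2),
      ((P.filter (fun H => H x.1 = H x.2)).card : ℝ) * T ≤ (T : ℝ) ^ (Fintype.card ι) := by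
    intro x hx
    have hne := (mem_filter.1 hx).2
    have h3 := rest {x.1} T (P.filter (fun H => H x.1 = H x.2)) (by
      rw [hP]
      exact filter_subset _ _) 1 (by
      intro H₀ _ S hS1 hS2
      rw [← Nat.cast_one (R := ℝ), Nat.cast_le, card_le_one]
      intro H hH H' hH'
      have h5 := hS2 H hH
      have h5' := hS2 H' hH'
      have h6 := (mem_filter.1 (hS1 hH)).2
      have h6' := (mem_filter.1 (hS1 hH')).2
      funext z
      by_cases hz : z = x.1
      · rw [hz, h6, h6', h5 x.2 (by rw [mem_singleton]; exact hne.symm),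
          h5' x.2 (by rw [mem_singleton]; exact hne.symm)]
      · rw [h5 z (by rw [mem_singleton]; exact hz), h5' z (by rw [mem_singleton]; exact hz)])
    rw [card_singleton, pow_one, one_mul] at h3
    exact h3
  have h3 : ((P.filter (fun H => ¬ Function.Injective H)).card : ℝ) ≤
      ∑ x ∈ univ.filter (fun x : ι × ι => x.1 ≠ x.2), ((P.filter (fun H => H x.1 = H x.2)).card : ℝ) := by
    have := (card_le_card h1).trans card_biUnion_le
    exact_mod_cast this
  calc ((P.filter (fun H => ¬ Function.Injective H)).card : ℝ) * T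
      ≤ (∑ x ∈ univ.filter (fun x : ι × ι => x.1 ≠ x.2),
          ((P.filter (fun H => H x.1 = H x.2)).card : ℝ)) * T :=
        mul_le_mul_of_nonneg_right h3 (Nat.cast_nonneg _)
    _ = ∑ x ∈ univ.filter (fun x : ι × ι => x.1 ≠ x.2),
          ((P.filter (fun H => H x.1 = H x.2)).card : ℝ) * T := by rw [sum_mul]
    _ ≤ ∑ _x ∈ univ.filter (fun x : ι × ι => x.1 ≠ x.2), (T : ℝ) ^ (Fintype.card ι) := sum_le_sum h2
    _ ≤ _ := by
        rw [sum_const, nsmul_eq_mul]
        apply mul_le_mul_of_nonneg_right _ (by positivity)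
        have h4 : (univ.filter (fun x : ι × ι => x.1 ≠ x.2)).card ≤ Fintype.card ι ^ 2 := by
          refine (card_filter_le _ _).trans ?_
          rw [card_univ, Fintype.card_prod, sq]
        exact_mod_cast h4

/-- the group of a class -/
def grp {m : ℕ} (γ : Fin (4 * m)) : Fin 4 := (finProdFinEquiv.symm γ).1

theorem two_groups {m : ℕ} (S : Finset (Fin (4 * m))) (hS : m + 1 ≤ S.card) :
    ∃ γ₀ ∈ S, ∃ γ₁ ∈ S, grp γ₀ < grp γ₁ := by
  by_contra hcon
  push Not at hcon
  have h1 : S.card ≤ (univ : Finset (Fin m)).card := by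
    apply card_le_card_of_injOn (fun γ => (finProdFinEquiv.symm γ).2)
    · intro γ _
      exact mem_coe.2 (mem_univ _)
    · intro γ hγ γ' hγ' h
      have h2 : grp γ = grp γ' := le_antisymm (hcon γ' hγ' γ hγ) (hcon γ hγ γ' hγ')
      exact finProdFinEquiv.symm.injective (Prod.ext h2 h)
  rw [card_univ, Fintype.card_fin] at h1
  omega

/-- the position of the form `z` -/
def pos {m K : ℕ} (M : ℕ) (r : Fin 4 → ℕ) (H : Fin (4 * m) × Fin K → ℕ) (z : Fin (4 * m) × Fin K) : ℕ :=
  r (grp z.1) + M * H z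

/-- all differences between the groups `g < g'` are in `B g g'` -/
def Fam {m K : ℕ} (M : ℕ) (B : Fin 4 → Fin 4 → Finset ℕ) (r : Fin 4 → ℕ) (H : Fin (4 * m) × Fin K → ℕ) :
    Prop :=
  ∀ z z' : Fin (4 * m) × Fin K, grp z.1 < grp z'.1 →
    pos M r H z < pos M r H z' ∧ pos M r H z' - pos M r H z ∈ B (grp z.1) (grp z'.1)

/-- quadruples with the differences in `B g g'`, in two classes modulo 3 -/
def PPC (B : Fin 4 → Fin 4 → Finset ℕ) (c : ℕ) (f : Fin 4 → ℕ) : Prop :=
  (∀ g g', g < g' → f g < f g' ∧ f g' - f g ∈ B g g') ∧ ∀ g, f g % 3 = 0 ∨ f g % 3 = c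

open Classical in
theorem fam_many (m K T M c : ℕ) (hmK : 1 ≤ m * K) (B : Fin 4 → Fin 4 → Finset ℕ) (r : Fin 4 → ℕ) (δ : ℝ) (hδ : 0 ≤ δ)
    (h : δ * (T : ℝ) ^ 4 ≤ (((Fintype.piFinset (fun _ : Fin 4 => range T)).filter
      (fun t => PPC B c (fun g => r g + M * t g))).card : ℝ)) :
    δ ^ ((m * K) ^ 4) * (T : ℝ) ^ (4 * m * K) ≤
      (((Fintype.piFinset (fun _ : Fin (4 * m) × Fin K => range T)).filter
        (fun H => Fam M B r H)).card : ℝ) := by
  have h1 := boxU (m * K) T hmK (fun t => PPC B c (fun g => r g + M * t g)) δ hδ h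
  have e : 4 * (m * K) = 4 * m * K := by ring
  rw [e] at h1
  refine h1.trans ?_
  rw [Nat.cast_le]
  set E : Fin (4 * m) × Fin K → Fin 4 × Fin (m * K) := fun z =>
    (grp z.1, finProdFinEquiv ((finProdFinEquiv.symm z.1).2, z.2)) with hE
  have hEs : Function.Surjective E := by
    rintro ⟨g, j⟩
    refine ⟨(finProdFinEquiv (g, (finProdFinEquiv.symm j).1), (finProdFinEquiv.symm j).2), ?_⟩
    rw [hE]
    unfold grp
    simp only [Equiv.symm_apply_apply, Equiv.apply_symm_apply, Prod.mk.eta]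
  apply card_le_card_of_injOn (fun H' => fun z => H' (E z))
  · intro H' hH'
    obtain ⟨h2, h3⟩ := mem_filter.1 (mem_coe.1 hH')
    refine mem_coe.2 (mem_filter.2 ⟨Fintype.mem_piFinset.2 fun z => Fintype.mem_piFinset.1 h2 (E z), ?_⟩)
    intro z z' hzz
    have h4 := (h3 (Function.update (fun _ => (E z).2) (grp z'.1) (E z').2)).1 (grp z.1) (grp z'.1) hzz
    simp only [Function.update_self, Function.update_of_ne hzz.ne] at h4
    exact h4
  · intro H' _ H'' _ h4
    funext y
    obtain ⟨z, rfl⟩ := hEs y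
    exact congrFun h4 z

theorem pos_inj {m K M : ℕ} (hM : 1 ≤ M) {B : Fin 4 → Fin 4 → Finset ℕ} {r : Fin 4 → ℕ}
    {H : Fin (4 * m) × Fin K → ℕ} (hF : Fam M B r H) (hi : Function.Injective H) :
    Function.Injective (pos M r H) := by
  intro z z' h
  rcases lt_trichotomy (grp z.1) (grp z'.1) with h1 | h1 | h1
  · have := (hF z z' h1).1
    omega
  · unfold pos at h
    rw [h1] at h
    exact hi (Nat.eq_of_mul_eq_mul_left hM (Nat.add_left_cancel h))
  · have := (hF z' z h1).1
    omega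

theorem pos_bd {m K M Hh : ℕ} {B : Fin 4 → Fin 4 → Finset ℕ} {r : Fin 4 → ℕ}
    (hB : ∀ g g', ∀ d ∈ B g g', 1 ≤ d ∧ d ≤ Hh) {H : Fin (4 * m) × Fin K → ℕ} (hF : Fam M B r H)
    (z₀ z₁ z : Fin (4 * m) × Fin K) (h01 : grp z₀.1 < grp z₁.1) :
    -(Hh : ℤ) ≤ (pos M r H z : ℤ) - pos M r H z₀ ∧ (pos M r H z : ℤ) - pos M r H z₀ ≤ Hh := by
  obtain ⟨a1, a2⟩ := hF z₀ z₁ h01
  have a3 := hB _ _ _ a2
  rcases lt_trichotomy (grp z₀.1) (grp z.1) with h1 | h1 | h1
  · obtain ⟨b1, b2⟩ := hF z₀ z h1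
    have b3 := hB _ _ _ b2
    omega
  · obtain ⟨b1, b2⟩ := hF z z₁ (h1 ▸ h01)
    have b3 := hB _ _ _ b2
    omega
  · obtain ⟨b1, b2⟩ := hF z z₀ h1
    have b3 := hB _ _ _ b2
    omega

end Pool.Agent.J6H13.CP
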